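import Pool.Agent.H110R2.Basic

set_option autoImplicit false

/-!
# Twin-width: definition and the structure lemma

A contraction sequence of a graph on `Fin n` is a sequence of partitions of the vertex set, starting
with the partition into singletons; every next partition is obtained by merging two parts. The red
degree of a part is the number of other parts to which it is neither completely adjacent nor
completely non-adjacent. The twin-width is at most `t` if in some contraction sequence all red
degrees are at most `t`.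
-/

open Finset

namespace Pool.Agent.T2H11.TW

/-- `A` is completely adjacent or completely non-adjacent to `B` -/
def Homog {V : Type} (G : SimpleGraph V) (A B : Finset V) : Prop :=
  (∀ a ∈ A, ∀ b ∈ B, G.Adj a b) ∨ (∀ a ∈ A, ∀ b ∈ B, ¬ G.Adj a b)

open Classical in
/-- The twin-width of `G` is at most `t`. -/
def TwwLe {V : Type} [Fintype V] (G : SimpleGraph V) (t : ℕ) : Prop :=
  ∃ P : ℕ → Finset (Finset V),
    P 0 = Finset.univ.image (fun v => {v}) ∧
    (∀ i, i + 1 < Fintype.card V → ∃ A ∈ P i, ∃ B ∈ P i, A ≠ B ∧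
      P (i + 1) = insert (A ∪ B) (((P i).erase A).erase B)) ∧
    (∀ i, i < Fintype.card V → ∀ A ∈ P i, ((P i).filter (fun B => B ≠ A ∧ ¬ Homog G A B)).card ≤ t)

/-- being a partition of the vertex set -/
structure IsPart {V : Type} (Q : Finset (Finset V)) : Prop where
  cover : ∀ v, ∃ A ∈ Q, v ∈ A
  disj : ∀ A ∈ Q, ∀ B ∈ Q, A ≠ B → Disjoint A B
  ne : ∀ A ∈ Q, A.Nonempty

lemma isPart_zero {V : Type} [Fintype V] [DecidableEq V] :
    IsPart (Finset.univ.image (fun v : V => ({v} : Finset V))) where
  cover v := ⟨{v}, by simp, by simp⟩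
  disj := by
    intro A hA B hB hAB
    simp only [mem_image, mem_univ, true_and] at hA hB
    obtain ⟨a, rfl⟩ := hA
    obtain ⟨b, rfl⟩ := hB
    rw [disjoint_singleton]
    rintro rfl
    exact hAB rfl
  ne := by
    intro A hA
    simp only [mem_image, mem_univ, true_and] at hA
    obtain ⟨a, rfl⟩ := hA
    exact singleton_nonempty a

lemma isPart_merge {V : Type} [DecidableEq V] {Q : Finset (Finset V)} (h : IsPart Q)
    {A B : Finset V} (hA : A ∈ Q) (hB : B ∈ Q) :
    IsPart (insert (A ∪ B) ((Q.erase A).erase B)) where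
  cover := by
    intro v
    obtain ⟨C, hC, hv⟩ := h.cover v
    by_cases h1 : C = A
    · exact ⟨A ∪ B, by simp, by rw [← h1]; simp [hv]⟩
    by_cases h2 : C = B
    · exact ⟨A ∪ B, by simp, by rw [← h2]; simp [hv]⟩
    exact ⟨C, by simp [h1, h2, hC], hv⟩
  disj := by
    have key : ∀ C ∈ (Q.erase A).erase B, Disjoint (A ∪ B) C := by
      intro C hC
      simp only [mem_erase] at hC
      rw [disjoint_union_left]
      exact ⟨h.disj A hA C hC.2.2 (Ne.symm hC.2.1), h.disj B hB C hC.2.2 (Ne.symm hC.1)⟩
    intro C hC D hD hCD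
    rw [mem_insert] at hC hD
    rcases hC with rfl | hC <;> rcases hD with rfl | hD
    · exact absurd rfl hCD
    · exact key D hD
    · exact (key C hC).symm
    · simp only [mem_erase] at hC hD
      exact h.disj C hC.2.2 D hD.2.2 hCD
  ne := by
    intro C hC
    rw [mem_insert] at hC
    rcases hC with rfl | hC
    · exact (h.ne A hA).mono subset_union_left
    · simp only [mem_erase] at hC
      exact h.ne C hC.2.2

lemma card_merge {V : Type} [DecidableEq V] {Q : Finset (Finset V)} (h : IsPart Q) {A B : Finset V}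
    (hA : A ∈ Q) (hB : B ∈ Q) (hAB : A ≠ B) :
    (insert (A ∪ B) ((Q.erase A).erase B)).card + 1 = Q.card := by
  have h1 : A ∪ B ∉ (Q.erase A).erase B := by
    intro hc
    simp only [mem_erase] at hc
    have h2 := h.disj A hA (A ∪ B) hc.2.2 (Ne.symm hc.2.1)
    obtain ⟨a, ha⟩ := h.ne A hA
    exact (Finset.disjoint_left.1 h2 ha) (by simp [ha])
  rw [card_insert_of_notMem h1]
  have h3 : B ∈ Q.erase A := by simp [hB, hAB.symm]
  rw [card_erase_of_mem h3, card_erase_of_mem hA]
  have h4 : 2 ≤ Q.card := by
    have : ({A, B} : Finset (Finset V)) ⊆ Q := by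
      intro C hC
      simp only [mem_insert, mem_singleton] at hC
      rcases hC with rfl | rfl
      · exact hA
      · exact hB
    have h5 := card_le_card this
    rwa [card_pair hAB] at h5
  omega

lemma seq_part {V : Type} [Fintype V] [DecidableEq V] {P : ℕ → Finset (Finset V)}
    (h0 : P 0 = Finset.univ.image (fun v => {v}))
    (hs : ∀ i, i + 1 < Fintype.card V → ∃ A ∈ P i, ∃ B ∈ P i, A ≠ B ∧
      P (i + 1) = insert (A ∪ B) (((P i).erase A).erase B)) :
    ∀ i, i < Fintype.card V → IsPart (P i) ∧ (P i).card + i = Fintype.card V := by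
  intro i
  induction i with
  | zero =>
    intro _
    rw [h0]
    refine ⟨isPart_zero, ?_⟩
    rw [card_image_of_injective _ (fun a b hab => by simpa using hab)]
    rw [card_univ, add_zero]
  | succ i ih =>
    intro hi
    obtain ⟨hp, hc⟩ := ih (by omega)
    obtain ⟨A, hA, B, hB, hAB, he⟩ := hs i hi
    rw [he]
    refine ⟨isPart_merge hp hA hB, ?_⟩
    have := card_merge hp hA hB hAB
    omega

/-- **Structure lemma.** Every set `U` of at least `M` vertices contains a set `C` of between `M` and
`2 M` vertices such that all but `t M` of the other vertices of `U` are homogeneous to `C`. -/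
theorem exists_part {V : Type} [Fintype V] {t : ℕ} {G : SimpleGraph V} (h : TwwLe G t)
    {U : Finset V} {M : ℕ}
    (hM : 1 ≤ M) (hU : M ≤ U.card) :
    ∃ C ⊆ U, M ≤ C.card ∧ C.card ≤ 2 * M ∧ ∃ Z ⊆ U, Z.card ≤ t * M ∧
      ∀ v ∈ U, v ∉ C → v ∉ Z → (∀ c ∈ C, G.Adj c v) ∨ (∀ c ∈ C, ¬ G.Adj c v) := by
  classical
  obtain ⟨P, h0, hs, hr⟩ := h
  have hpart := seq_part h0 hs
  set n := Fintype.card V with hnV
  have hn : 1 ≤ n := by
    have : U.card ≤ n := card_le_univ U
    omega
  -- a large part at the end
  have hex : ∃ i, i < n ∧ ∃ A ∈ P i, M ≤ (A ∩ U).card := by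
    refine ⟨n - 1, by omega, ?_⟩
    obtain ⟨hp, hc⟩ := hpart (n - 1) (by omega)
    have hc1 : (P (n - 1)).card = 1 := by omega
    obtain ⟨A, hA⟩ := card_eq_one.1 hc1
    refine ⟨A, by rw [hA]; simp, ?_⟩
    have hAu : A = univ := by
      ext v
      simp only [mem_univ, iff_true]
      obtain ⟨B, hB, hv⟩ := hp.cover v
      rw [hA, mem_singleton] at hB
      rwa [← hB]
    rw [hAu, univ_inter]
    exact hU
  set i := Nat.find hex with hi
  obtain ⟨hin, A, hA, hAM⟩ := Nat.find_spec hex
  have hmin : ∀ j < i, ∀ B ∈ P j, (B ∩ U).card < M := by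
    intro j hj B hB
    by_contra hcon
    exact Nat.find_min hex hj ⟨by omega, B, hB, by omega⟩
  rw [← hi] at hin hA
  obtain ⟨hp, -⟩ := hpart i hin
  -- size of the part and of the other parts
  have hsize : (A ∩ U).card ≤ 2 * M ∧ ∀ B ∈ P i, B ≠ A → (B ∩ U).card ≤ M := by
    rcases Nat.eq_zero_or_pos i with hi0 | hi0
    · rw [hi0, h0] at hA
      rw [hi0, h0]
      have hle : ∀ B ∈ Finset.univ.image (fun v : V => ({v} : Finset V)),
          (B ∩ U).card ≤ 1 := by
        intro B hB
        simp only [mem_image, mem_univ, true_and] at hB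
        obtain ⟨b, rfl⟩ := hB
        exact (card_le_card inter_subset_left).trans (by simp)
      exact ⟨(hle A hA).trans (by omega), fun B hB _ => (hle B hB).trans hM⟩
    · obtain ⟨j, hj⟩ : ∃ j, i = j + 1 := ⟨i - 1, by omega⟩
      obtain ⟨A1, hA1, A2, hA2, h12, he⟩ := hs j (by omega)
      have hother : ∀ B ∈ P i, B ≠ A1 ∪ A2 → (B ∩ U).card < M := by
        intro B hB hne
        rw [hj, he, mem_insert] at hB
        rcases hB with hB | hB
        · exact absurd hB hne
        · simp only [mem_erase] at hB
          exact hmin j (by omega) B hB.2.2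
      have hAeq : A = A1 ∪ A2 := by
        by_contra hne
        have := hother A hA hne
        omega
      refine ⟨?_, fun B hB hne => (hother B hB (by rw [← hAeq]; exact hne)).le⟩
      rw [hAeq, union_inter_distrib_right]
      refine (card_union_le _ _).trans ?_
      have h1 := hmin j (by omega) A1 hA1
      have h2 := hmin j (by omega) A2 hA2
      omega
  set F := (P i).filter (fun B => B ≠ A ∧ ¬ Homog G A B) with hF
  have hFc : F.card ≤ t := hr i hin A hA
  refine ⟨A ∩ U, inter_subset_right, hAM, hsize.1, F.biUnion (fun B => B ∩ U), ?_, ?_, ?_⟩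
  · intro v hv
    simp only [mem_biUnion, mem_inter] at hv
    obtain ⟨B, _, _, hv⟩ := hv
    exact hv
  · calc (F.biUnion (fun B => B ∩ U)).card ≤ ∑ B ∈ F, (B ∩ U).card := card_biUnion_le
      _ ≤ ∑ B ∈ F, M := by
          refine sum_le_sum fun B hB => ?_
          rw [hF, mem_filter] at hB
          exact hsize.2 B hB.1 hB.2.1
      _ = F.card * M := by simp
      _ ≤ t * M := Nat.mul_le_mul_right _ hFc
  · intro v hv hvC hvZ
    obtain ⟨B, hB, hvB⟩ := hp.cover v
    have hBA : B ≠ A := by
      rintro rfl
      exact hvC (mem_inter.2 ⟨hvB, hv⟩)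
    have hH : Homog G A B := by
      by_contra hcon
      apply hvZ
      simp only [mem_biUnion, mem_inter]
      exact ⟨B, by rw [hF, mem_filter]; exact ⟨hB, hBA, hcon⟩, hvB, hv⟩
    rcases hH with hH | hH
    · exact Or.inl fun c hc => hH c (mem_inter.1 hc).1 v hvB
    · exact Or.inr fun c hc => hH c (mem_inter.1 hc).1 v hvB

end Pool.Agent.T2H11.TW
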