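import Pool.Agent.T2H11.TW.Basic

set_option autoImplicit false

/-!
# Large induced cographs in graphs of small twin-width
-/

open Finset

namespace Pool.Agent.T2H11.TW

/-- `Q` induces a cograph: it is obtained from single vertices by joins and disjoint unions -/
inductive IsCog {V : Type} [DecidableEq V] (G : SimpleGraph V) : Finset V → Prop
  | single (v : V) : IsCog G {v}
  | join (A B : Finset V) : Disjoint A B → (∀ a ∈ A, ∀ b ∈ B, G.Adj a b) → IsCog G A → IsCog G B →
      IsCog G (A ∪ B)
  | cojoin (A B : Finset V) : Disjoint A B → (∀ a ∈ A, ∀ b ∈ B, ¬ G.Adj a b) → IsCog G A →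
      IsCog G B → IsCog G (A ∪ B)

lemma clique_union {V : Type} [DecidableEq V] {G : SimpleGraph V} {A B S T : Finset V}
    (hS : S ⊆ A) (hT : T ⊆ B) (h : ∀ a ∈ A, ∀ b ∈ B, G.Adj a b)
    (hSc : G.IsClique (S : Set V)) (hTc : G.IsClique (T : Set V)) :
    G.IsClique ((S ∪ T : Finset V) : Set V) := by
  intro u hu v hv huv
  rw [mem_coe, mem_union] at hu hv
  rcases hu with hu | hu <;> rcases hv with hv | hv
  · exact hSc (mem_coe.2 hu) (mem_coe.2 hv) huv
  · exact h u (hS hu) v (hT hv)
  · exact (h v (hS hv) u (hT hu)).symm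
  · exact hTc (mem_coe.2 hu) (mem_coe.2 hv) huv

/-- the size of a cograph is at most the product of the sizes of a clique and of an independent set -/
theorem cog_clique {V : Type} [DecidableEq V] {G : SimpleGraph V} {Q : Finset V} (h : IsCog G Q) :
    ∃ S ⊆ Q, ∃ T ⊆ Q, G.IsClique (S : Set V) ∧ Gᶜ.IsClique (T : Set V) ∧
      Q.card ≤ S.card * T.card := by
  induction h with
  | single v => exact ⟨{v}, Subset.rfl, {v}, Subset.rfl, by simp, by simp, by simp⟩
  | join A B hd hadj _ _ ihA ihB =>
    obtain ⟨S, hS, T, hT, h1, h2, h3⟩ := ihA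
    obtain ⟨S', hS', T', hT', h1', h2', h3'⟩ := ihB
    have hcard : (A ∪ B).card = A.card + B.card := card_union_of_disjoint hd
    have hSS : (S ∪ S').card = S.card + S'.card :=
      card_union_of_disjoint (hd.mono hS hS')
    rcases le_total T.card T'.card with hle | hle
    · refine ⟨S ∪ S', union_subset_union hS hS', T', hT'.trans subset_union_right,
        clique_union hS hS' hadj h1 h1', h2', ?_⟩
      rw [hcard, hSS]
      nlinarith
    · refine ⟨S ∪ S', union_subset_union hS hS', T, hT.trans subset_union_left,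
        clique_union hS hS' hadj h1 h1', h2, ?_⟩
      rw [hcard, hSS]
      nlinarith
  | cojoin A B hd hadj _ _ ihA ihB =>
    obtain ⟨S, hS, T, hT, h1, h2, h3⟩ := ihA
    obtain ⟨S', hS', T', hT', h1', h2', h3'⟩ := ihB
    have hcard : (A ∪ B).card = A.card + B.card := card_union_of_disjoint hd
    have hTT : (T ∪ T').card = T.card + T'.card :=
      card_union_of_disjoint (hd.mono hT hT')
    have hadj' : ∀ a ∈ A, ∀ b ∈ B, Gᶜ.Adj a b := by
      intro a ha b hb
      rw [SimpleGraph.compl_adj]
      refine ⟨?_, hadj a ha b hb⟩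
      rintro rfl
      exact (Finset.disjoint_left.1 hd ha) hb
    rcases le_total S.card S'.card with hle | hle
    · refine ⟨S', hS'.trans subset_union_right, T ∪ T', union_subset_union hT hT',
        h1', clique_union hT hT' hadj' h2 h2', ?_⟩
      rw [hcard, hTT]
      nlinarith
    · refine ⟨S, hS.trans subset_union_left, T ∪ T', union_subset_union hT hT',
        h1, clique_union hT hT' hadj' h2 h2', ?_⟩
      rw [hcard, hTT]
      nlinarith

/-- **Large cographs.** -/
theorem exists_cog {V : Type} [Fintype V] [DecidableEq V] {G : SimpleGraph V} {t : ℕ}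
    (h : TwwLe G t) {m : ℕ} (hm : 1 ≤ m) : ∀ (J : ℕ) (U : Finset V),
      (2 ^ m * (t + 2)) ^ J ≤ U.card → ∃ Q ⊆ U, IsCog G Q ∧ m ^ J ≤ Q.card := by
  classical
  intro J
  induction J with
  | zero =>
    intro U hU
    rw [pow_zero] at hU
    obtain ⟨v, hv⟩ := card_pos.1 hU
    exact ⟨{v}, singleton_subset_iff.2 hv, IsCog.single v, by simp⟩
  | succ J ih =>
    set N := (2 ^ m * (t + 2)) ^ J with hN
    have hN1 : 1 ≤ N := Nat.one_le_pow _ _ (by positivity)
    have inner : ∀ (i : ℕ), 1 ≤ i → ∀ U : Finset V, (2 ^ i - 1) * ((t + 2) * N) ≤ U.card →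
        ∃ Q ⊆ U, IsCog G Q ∧ i * m ^ J ≤ Q.card := by
      intro i hi
      induction i, hi using Nat.le_induction with
      | base =>
        intro U hU
        have h0 : (2 ^ 1 - 1) * ((t + 2) * N) = t * N + 2 * N := by
          norm_num; ring
        rw [h0] at hU
        obtain ⟨Q, hQ, h1, h2⟩ := ih U (by nlinarith [Nat.zero_le (t * N)])
        exact ⟨Q, hQ, h1, by omega⟩
      | succ i hi ihi =>
        intro U hU
        have hpow : 2 ^ (i + 1) = 2 * 2 ^ i := by ring
        have hpi : 1 ≤ 2 ^ i := Nat.one_le_two_pow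
        obtain ⟨x, hx⟩ : ∃ x, 2 ^ i = x + 1 := ⟨2 ^ i - 1, by omega⟩
        have hU2 : (2 * x + 1) * ((t + 2) * N) ≤ U.card := by
          rw [hpow, hx] at hU
          have : 2 * (x + 1) - 1 = 2 * x + 1 := by omega
          rwa [this] at hU
        have hUN : N ≤ U.card := by
          refine le_trans ?_ hU2
          nlinarith [Nat.zero_le (x * ((t + 2) * N)), Nat.zero_le (t * N)]
        obtain ⟨C, hCU, hC1, hC2, Z, hZU, hZ1, hZ2⟩ := exists_part h hN1 hUN
        set SR := (U \ (C ∪ Z)).filter (fun v => ∀ c ∈ C, G.Adj c v) with hSR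
        set SB := (U \ (C ∪ Z)).filter (fun v => ∀ c ∈ C, ¬ G.Adj c v) with hSB
        have hSRU : SR ⊆ U := (filter_subset _ _).trans sdiff_subset
        have hSBU : SB ⊆ U := (filter_subset _ _).trans sdiff_subset
        have hcov : U ⊆ (SR ∪ SB) ∪ (C ∪ Z) := by
          intro v hv
          by_cases hvC : v ∈ C
          · simp [hvC]
          by_cases hvZ : v ∈ Z
          · simp [hvZ]
          rcases hZ2 v hv hvC hvZ with h1 | h1
          · refine mem_union_left _ (mem_union_left _ ?_)
            rw [hSR, mem_filter, mem_sdiff, mem_union]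
            exact ⟨⟨hv, by tauto⟩, h1⟩
          · refine mem_union_left _ (mem_union_right _ ?_)
            rw [hSB, mem_filter, mem_sdiff, mem_union]
            exact ⟨⟨hv, by tauto⟩, h1⟩
        have hc : U.card ≤ SR.card + SB.card + (2 * N + t * N) := by
          have h1 : U.card ≤ SR.card + SB.card + (C.card + Z.card) :=
            (card_le_card hcov).trans ((card_union_le _ _).trans
              (add_le_add (card_union_le _ _) (card_union_le _ _)))
          omega
        have hbig : x * ((t + 2) * N) ≤ SR.card ∨ x * ((t + 2) * N) ≤ SB.card := by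
          by_contra hcon
          push Not at hcon
          nlinarith
        obtain ⟨Q1, hQ1, hq1, hq1c⟩ := ih C hC1
        have hdis : ∀ W : Finset V, W ⊆ U \ (C ∪ Z) → Disjoint C W := by
          intro W hW
          rw [Finset.disjoint_left]
          intro v hv hv2
          have := hW hv2
          rw [mem_sdiff, mem_union] at this
          exact this.2 (Or.inl hv)
        have hxi : 2 ^ i - 1 = x := by omega
        rw [hxi] at ihi
        rcases hbig with hb | hb
        · obtain ⟨Q2, hQ2, hq2, hq2c⟩ := ihi SR hb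
          have hd : Disjoint Q1 Q2 := (hdis SR (filter_subset _ _)).mono hQ1 hQ2
          refine ⟨Q1 ∪ Q2, union_subset (hQ1.trans hCU) (hQ2.trans hSRU),
            IsCog.join Q1 Q2 hd ?_ hq1 hq2, ?_⟩
          · intro a ha b hb'
            have := hQ2 hb'
            rw [hSR, mem_filter] at this
            exact this.2 a (hQ1 ha)
          · rw [card_union_of_disjoint hd, Nat.succ_mul]
            omega
        · obtain ⟨Q2, hQ2, hq2, hq2c⟩ := ihi SB hb
          have hd : Disjoint Q1 Q2 := (hdis SB (filter_subset _ _)).mono hQ1 hQ2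
          refine ⟨Q1 ∪ Q2, union_subset (hQ1.trans hCU) (hQ2.trans hSBU),
            IsCog.cojoin Q1 Q2 hd ?_ hq1 hq2, ?_⟩
          · intro a ha b hb'
            have := hQ2 hb'
            rw [hSB, mem_filter] at this
            exact this.2 a (hQ1 ha)
          · rw [card_union_of_disjoint hd, Nat.succ_mul]
            omega
    intro U hU
    obtain ⟨Q, hQ, h1, h2⟩ := inner m hm U (by
      rw [pow_succ, ← hN] at hU
      refine le_trans ?_ hU
      have h3 : 2 ^ m - 1 ≤ 2 ^ m := Nat.sub_le _ _
      calc (2 ^ m - 1) * ((t + 2) * N) ≤ 2 ^ m * ((t + 2) * N) := Nat.mul_le_mul_right _ h3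
        _ = N * (2 ^ m * (t + 2)) := by ring)
    exact ⟨Q, hQ, h1, by rw [pow_succ, mul_comm]; exact h2⟩

/-- polynomial bound -/
theorem poly_upper {V : Type} [Fintype V] {G : SimpleGraph V} {t k m J : ℕ} (h : TwwLe G t)
    (hr : G.CliqueFree k) (hb : Gᶜ.CliqueFree k) (hm : 1 ≤ m) (hk : 1 ≤ k) (hJ : k ^ 2 ≤ m ^ J) :
    Fintype.card V < (2 ^ m * (t + 2)) ^ J := by
  classical
  by_contra hcon
  push Not at hcon
  obtain ⟨Q, -, hQ, hQc⟩ := exists_cog h hm J Finset.univ (by rw [card_univ]; exact hcon)
  obtain ⟨S, -, T, -, hS, hT, hST⟩ := cog_clique hQ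
  have bound : ∀ (H : SimpleGraph V) (W : Finset V), H.CliqueFree k → H.IsClique (W : Set V) →
      W.card + 1 ≤ k := by
    intro H W hH hW
    by_contra hc
    push Not at hc
    obtain ⟨W', hW', hc'⟩ := Finset.exists_subset_card_eq (s := W) (n := k) (by omega)
    refine hH W' ?_
    rw [SimpleGraph.isNClique_iff]
    exact ⟨hW.subset (by exact_mod_cast hW'), hc'⟩
  have h1 := bound G S hr hS
  have h2 := bound Gᶜ T hb hT
  have h3 : S.card * T.card < k ^ 2 := by
    rw [pow_two]
    exact Nat.mul_lt_mul_of_lt_of_le (by omega) (by omega) (by omega)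
  omega

end Pool.Agent.T2H11.TW
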