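import Pool.Agent.T2H11.TW.Basic

set_option autoImplicit false

/-!
# Building contraction sequences
-/

open Finset

namespace Pool.Agent.T2H11.TW

open Classical in
/-- all red degrees of the partition `Q` are at most `t` -/
def RD {V : Type} (G : SimpleGraph V) (t : ℕ) (Q : Finset (Finset V)) : Prop :=
  ∀ A ∈ Q, (Q.filter (fun B => B ≠ A ∧ ¬ Homog G A B)).card ≤ t

open Classical in
/-- from the partition `Q` one can merge parts `s` times with red degrees at most `t` -/
def Con {V : Type} (G : SimpleGraph V) (t s : ℕ) (Q : Finset (Finset V)) : Prop :=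
  ∃ P : ℕ → Finset (Finset V), P 0 = Q ∧
    (∀ i, i < s → ∃ A ∈ P i, ∃ B ∈ P i, A ≠ B ∧
      P (i + 1) = insert (A ∪ B) (((P i).erase A).erase B)) ∧
    (∀ i, i ≤ s → RD G t (P i))

open Classical in
lemma Con.zero {V : Type} {G : SimpleGraph V} {t : ℕ} {Q : Finset (Finset V)} (h : RD G t Q) :
    Con G t 0 Q :=
  ⟨fun _ => Q, rfl, fun i hi => absurd hi (by omega), fun _ _ => h⟩

open Classical in
lemma Con.step {V : Type} {G : SimpleGraph V} {t s : ℕ} {Q : Finset (Finset V)} {A B : Finset V}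
    (h : RD G t Q) (hA : A ∈ Q) (hB : B ∈ Q) (hAB : A ≠ B)
    (hc : Con G t s (insert (A ∪ B) ((Q.erase A).erase B))) : Con G t (s + 1) Q := by
  obtain ⟨P, h0, hs, hr⟩ := hc
  refine ⟨fun i => Nat.casesOn i Q P, rfl, ?_, ?_⟩
  · intro i hi
    cases i with
    | zero => exact ⟨A, hA, B, hB, hAB, h0⟩
    | succ i => exact hs i (by omega)
  · intro i hi
    cases i with
    | zero => exact h
    | succ i => exact hr i (by omega)

open Classical in
lemma Con.head {V : Type} {G : SimpleGraph V} {t s : ℕ} {Q : Finset (Finset V)}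
    (h : Con G t (s + 1) Q) : RD G t Q ∧ ∃ A ∈ Q, ∃ B ∈ Q, A ≠ B ∧
      Con G t s (insert (A ∪ B) ((Q.erase A).erase B)) := by
  obtain ⟨P, h0, hs, hr⟩ := h
  obtain ⟨A, hA, B, hB, hAB, he⟩ := hs 0 (by omega)
  rw [h0] at hA hB he
  refine ⟨by rw [← h0]; exact hr 0 (by omega), A, hA, B, hB, hAB, fun i => P (i + 1), he, ?_, ?_⟩
  · intro i hi
    exact hs (i + 1) (by omega)
  · intro i hi
    exact hr (i + 1) (by omega)

lemma Con.rd {V : Type} {G : SimpleGraph V} {t s : ℕ} {Q : Finset (Finset V)}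
    (h : Con G t s Q) : RD G t Q := by
  obtain ⟨P, h0, -, hr⟩ := h
  rw [← h0]
  exact hr 0 (by omega)

open Classical in
lemma twwLe_iff_con {V : Type} [Fintype V] [Nonempty V] {G : SimpleGraph V} {t : ℕ} :
    TwwLe G t ↔ Con G t (Fintype.card V - 1) (Finset.univ.image (fun v => {v})) := by
  have hn : 0 < Fintype.card V := Fintype.card_pos
  constructor
  · rintro ⟨P, h0, hs, hr⟩
    exact ⟨P, h0, fun i hi => hs i (by omega), fun i hi => hr i (by omega)⟩
  · rintro ⟨P, h0, hs, hr⟩
    exact ⟨P, h0, fun i hi => hs i (by omega), fun i hi => hr i (by omega)⟩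

/-- change of the decidability instance -/
lemma con_inst {V : Type} [Fintype V] (i1 i2 : DecidableEq (Finset V)) {G : SimpleGraph V} {t s : ℕ}
    (h : Con G t s (@Finset.image _ _ i1 (fun v : V => ({v} : Finset V)) Finset.univ)) :
    Con G t s (@Finset.image _ _ i2 (fun v : V => ({v} : Finset V)) Finset.univ) := by
  obtain rfl : i1 = i2 := Subsingleton.elim _ _
  exact h

open Classical in
lemma con_small {V : Type} (G : SimpleGraph V) (t : ℕ) : ∀ (s : ℕ) (Q : Finset (Finset V)),
    IsPart Q → Q.card = s + 1 → Q.card ≤ t + 1 → Con G t s Q := by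
  have hrd : ∀ Q : Finset (Finset V), Q.card ≤ t + 1 → RD G t Q := by
    intro Q hQ A hA
    have h1 : Q.filter (fun B => B ≠ A ∧ ¬ Homog G A B) ⊆ Q.erase A := by
      intro B hB
      rw [mem_filter] at hB
      rw [mem_erase]
      exact ⟨hB.2.1, hB.1⟩
    have h2 := card_le_card h1
    rw [card_erase_of_mem hA] at h2
    omega
  intro s
  induction s with
  | zero => intro Q _ _ h2; exact Con.zero (hrd Q h2)
  | succ s ih =>
    intro Q hQ h1 h2
    obtain ⟨A, hA, B, hB, hAB⟩ := one_lt_card.1 (by omega : 1 < Q.card)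
    have hc := card_merge hQ hA hB hAB
    exact Con.step (hrd Q h2) hA hB hAB (ih _ (isPart_merge hQ hA hB) (by omega) (by omega))

/-- every graph with at most `t + 1` vertices has twin-width at most `t` -/
theorem twwLe_all {V : Type} [Fintype V] (G : SimpleGraph V) {t : ℕ} (h : Fintype.card V ≤ t + 1) :
    TwwLe G t := by
  classical
  rcases isEmpty_or_nonempty V with hV | hV
  · refine ⟨fun _ => ∅, ?_, ?_, ?_⟩
    · simp
    · intro i hi
      rw [Fintype.card_eq_zero] at hi
      omega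
    · intro i hi
      rw [Fintype.card_eq_zero] at hi
      omega
  · rw [twwLe_iff_con]
    have hn : 0 < Fintype.card V := Fintype.card_pos
    have hc : (Finset.univ.image (fun v : V => ({v} : Finset V))).card = Fintype.card V := by
      rw [card_image_of_injective _ (fun a b hab => by simpa using hab), card_univ]
    exact con_inst _ _ (con_small G t (Fintype.card V - 1) (Finset.univ.image (fun v => {v}))
      isPart_zero (by rw [hc]; omega) (by rw [hc]; exact h))

lemma rd_of {V : Type} {G : SimpleGraph V} {t : ℕ} {Q : Finset (Finset V)}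
    (h : ∀ A ∈ Q, ∀ F : Finset (Finset V), (∀ B ∈ F, B ∈ Q ∧ B ≠ A ∧ ¬ Homog G A B) → F.card ≤ t) :
    RD G t Q := by
  classical
  intro A hA
  refine h A hA _ ?_
  intro B hB
  exact Finset.mem_filter.1 hB

lemma RD.le {V : Type} {G : SimpleGraph V} {t : ℕ} {Q : Finset (Finset V)} (h : RD G t Q)
    {A : Finset V} (hA : A ∈ Q) (F : Finset (Finset V))
    (hF : ∀ B ∈ F, B ∈ Q ∧ B ≠ A ∧ ¬ Homog G A B) : F.card ≤ t := by
  classical
  refine le_trans (card_le_card ?_) (h A hA)
  intro B hB
  rw [mem_filter]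
  exact hF B hB

lemma Con.step' {V : Type} [DecidableEq V] {G : SimpleGraph V} {t s : ℕ} {Q : Finset (Finset V)}
    {A B : Finset V} (h : RD G t Q) (hA : A ∈ Q) (hB : B ∈ Q) (hAB : A ≠ B)
    (hc : Con G t s (insert (A ∪ B) ((Q.erase A).erase B))) : Con G t (s + 1) Q := by
  obtain rfl : ‹DecidableEq V› = (fun a b => Classical.propDecidable (a = b)) :=
    Subsingleton.elim _ _
  exact Con.step h hA hB hAB hc

lemma Con.head' {V : Type} [DecidableEq V] {G : SimpleGraph V} {t s : ℕ} {Q : Finset (Finset V)}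
    (h : Con G t (s + 1) Q) : RD G t Q ∧ ∃ A ∈ Q, ∃ B ∈ Q, A ≠ B ∧
      Con G t s (insert (A ∪ B) ((Q.erase A).erase B)) := by
  obtain rfl : ‹DecidableEq V› = (fun a b => Classical.propDecidable (a = b)) :=
    Subsingleton.elim _ _
  exact h.head

lemma RD.mono {V : Type} {G : SimpleGraph V} {s t : ℕ} {Q : Finset (Finset V)} (h : RD G s Q)
    (hst : s ≤ t) : RD G t Q := fun A hA => (h A hA).trans hst

lemma TwwLe.mono {V : Type} [Fintype V] {G : SimpleGraph V} {s t : ℕ} (h : TwwLe G s)
    (hst : s ≤ t) : TwwLe G t := by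
  obtain ⟨P, h0, hs, hr⟩ := h
  exact ⟨P, h0, hs, fun i hi A hA => (hr i hi A hA).trans hst⟩

end Pool.Agent.T2H11.TW
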