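import Pool.Agent.T2H11.TW.Num
import Pool.Agent.T2H11.TW.Seq

set_option autoImplicit false

/-!
# The growth rate
-/

open Finset Filter Topology

namespace Pool.Agent.T2H11.TW

open Pool.Agent.R51.Stair (NoMono ramsey ramsey_pos log_four_lt noMono_iff ramsey_eq rate_ge
  tendsto_err err_eq)

/-- the Ramsey number of the colourings of twin-width at most `t` -/
noncomputable def twRamsey (t k : ℕ) : ℕ :=
  sInf {n : ℕ | ∀ G : SimpleGraph (Fin n), TwwLe G t → ¬ NoMono G k}

theorem log_upper_fin {n t k : ℕ} {G : SimpleGraph (Fin n)} (hk : 2 ≤ k) (h : TwwLe G t)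
    (hG : NoMono G k) : Real.log n ≤ Real.log (t + 2) + 8 * Real.sqrt (k * Real.log k) := by
  have := log_upper hk h hG.1 hG.2
  rwa [Fintype.card_fin] at this

theorem twRamsey_le_ramsey (t k : ℕ) : twRamsey t k ≤ ramsey k := by
  unfold twRamsey ramsey
  apply Nat.sInf_le
  intro G _
  have h : (ramsey k) ∈ {n : ℕ | ∀ G : SimpleGraph (Fin n), ¬ NoMono G k} := by
    apply Nat.sInf_mem
    obtain ⟨n, hn⟩ := Pool.Agent.H818R2.Ram.arrows_exists k k
    exact ⟨n, fun G => (noMono_iff G).2 (hn G)⟩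
  exact h G

theorem twRamsey_mem (t k : ℕ) :
    ∀ G : SimpleGraph (Fin (twRamsey t k)), TwwLe G t → ¬ NoMono G k := by
  have hmem : twRamsey t k ∈ {n : ℕ | ∀ G : SimpleGraph (Fin n), TwwLe G t → ¬ NoMono G k} := by
    apply Nat.sInf_mem
    obtain ⟨n, hn⟩ := Pool.Agent.H818R2.Ram.arrows_exists k k
    exact ⟨n, fun G _ => (noMono_iff G).2 (hn G)⟩
  exact hmem

theorem le_twRamsey (t k : ℕ) : min (t + 2) (ramsey k) ≤ twRamsey t k := by
  by_contra hcon
  push Not at hcon
  rw [lt_min_iff] at hcon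
  obtain ⟨h1, h2⟩ := hcon
  rw [ramsey_eq] at h2
  obtain ⟨G, hr, hb⟩ := Pool.Agent.H818R2.Ram.exists_coloring h2
  refine twRamsey_mem t k G (twwLe_all G (by rw [Fintype.card_fin]; omega)) ⟨?_, ?_⟩
  · intro T hT
    exact hr ⟨T, subset_univ _, hT⟩
  · intro T hT
    exact hb ⟨T, subset_univ _, hT⟩

theorem twRamsey_pos (t : ℕ) {k : ℕ} (hk : 1 ≤ k) : 1 ≤ twRamsey t k := by
  refine le_trans ?_ (le_twRamsey t k)
  exact le_min (by omega) (ramsey_pos hk)

theorem twRamsey_le (t : ℕ) {k : ℕ} (hk : 2 ≤ k) :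
    (twRamsey t k : ℝ) ≤ 2 * ((t + 2) * Real.exp (8 * Real.sqrt (k * Real.log k))) := by
  set B : ℝ := (t + 2) * Real.exp (8 * Real.sqrt (k * Real.log k)) with hB
  have htR : (0 : ℝ) ≤ t := Nat.cast_nonneg t
  have hB1 : 1 ≤ B := by
    rw [hB]
    have h1 : 1 ≤ Real.exp (8 * Real.sqrt (k * Real.log k)) := Real.one_le_exp (by positivity)
    nlinarith
  have hle : twRamsey t k ≤ ⌊B⌋₊ + 1 := by
    unfold twRamsey
    apply Nat.sInf_le
    intro G hc hG
    have h := log_upper_fin hk hc hG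
    have h3 : ((⌊B⌋₊ + 1 : ℕ) : ℝ) ≤ B := by
      have h4 : Real.log ((⌊B⌋₊ + 1 : ℕ) : ℝ) ≤ Real.log B := by
        rw [hB, Real.log_mul (by positivity) (by positivity), Real.log_exp]
        exact h
      exact (Real.log_le_log_iff (by positivity) (by linarith)).1 h4
    have h5 := Nat.lt_floor_add_one B
    push_cast at h3
    linarith
  have h6 : (twRamsey t k : ℝ) ≤ ((⌊B⌋₊ + 1 : ℕ) : ℝ) := by exact_mod_cast hle
  have h7 : (⌊B⌋₊ : ℝ) ≤ B := Nat.floor_le (by linarith)
  push_cast at h6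
  linarith

/-- **The growth rate.** -/
theorem growth {ε : ℝ} (hε : 0 < ε) :
    Tendsto (fun k : ℕ => Real.log (twRamsey ⌊Real.exp (ε * k)⌋₊ k) / k -
      min ε (Real.log (ramsey k) / k)) atTop (𝓝 0) := by
  have hl2 := Real.log_two_gt_d9
  have hup : Tendsto (fun k : ℕ => 2 / (k : ℝ) + 10 * Real.sqrt (Real.log k / k)) atTop (𝓝 0) := by
    simpa using (tendsto_const_div_atTop_nhds_zero_nat 2).add tendsto_err
  refine tendsto_of_tendsto_of_tendsto_of_le_of_le' tendsto_const_nhds hup ?_ ?_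
  · filter_upwards [eventually_ge_atTop 2] with k hk
    have hk0 : (0 : ℝ) < k := by
      have : 0 < k := by omega
      exact_mod_cast this
    set t : ℕ := ⌊Real.exp (ε * k)⌋₊ with ht
    have hR1 : (1 : ℝ) ≤ ramsey k := by exact_mod_cast ramsey_pos (by omega : 1 ≤ k)
    have hc1 : (1 : ℝ) ≤ twRamsey t k := by exact_mod_cast twRamsey_pos t (by omega : 1 ≤ k)
    have h1 : min (Real.exp (ε * k)) (ramsey k : ℝ) ≤ twRamsey t k := by
      have h2 : ((min (t + 2) (ramsey k) : ℕ) : ℝ) ≤ twRamsey t k := by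
        exact_mod_cast le_twRamsey t k
      refine le_trans ?_ h2
      rw [Nat.cast_min]
      refine min_le_min ?_ le_rfl
      have h3 : Real.exp (ε * k) < t + 1 := Nat.lt_floor_add_one _
      push_cast
      linarith
    have h5 : min (ε * k) (Real.log (ramsey k)) ≤ Real.log (twRamsey t k) := by
      rcases le_total (Real.exp (ε * k)) (ramsey k : ℝ) with h | h
      · rw [min_eq_left h] at h1
        have h6 : Real.log (Real.exp (ε * k)) ≤ Real.log (twRamsey t k) :=
          Real.log_le_log (by positivity) h1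
        rw [Real.log_exp] at h6
        exact (min_le_left _ _).trans h6
      · rw [min_eq_right h] at h1
        have h6 : Real.log (ramsey k) ≤ Real.log (twRamsey t k) :=
          Real.log_le_log (by linarith) h1
        exact (min_le_right _ _).trans h6
    have h7 : min ε (Real.log (ramsey k) / k) * k = min (ε * k) (Real.log (ramsey k)) := by
      rw [min_mul_of_nonneg _ _ hk0.le, div_mul_cancel₀ _ hk0.ne']
    rw [← h7] at h5
    have h8 : min ε (Real.log (ramsey k) / k) ≤ Real.log (twRamsey t k) / k := by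
      rw [le_div_iff₀ hk0]
      exact h5
    linarith
  · filter_upwards [eventually_ge_atTop 2] with k hk
    have hk0 : (0 : ℝ) < k := by
      have : 0 < k := by omega
      exact_mod_cast this
    set t : ℕ := ⌊Real.exp (ε * k)⌋₊ with ht
    have hR1 : (1 : ℝ) ≤ ramsey k := by exact_mod_cast ramsey_pos (by omega : 1 ≤ k)
    have hc1 : (1 : ℝ) ≤ twRamsey t k := by exact_mod_cast twRamsey_pos t (by omega : 1 ≤ k)
    have ht1 : (t : ℝ) ≤ Real.exp (ε * k) := Nat.floor_le (Real.exp_pos _).le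
    have hexp1 : 1 ≤ Real.exp (ε * k) := Real.one_le_exp (by positivity)
    have h1 : Real.log (twRamsey t k) ≤ Real.log (ramsey k) :=
      Real.log_le_log (by linarith) (by exact_mod_cast twRamsey_le_ramsey t k)
    have h2 : Real.log (twRamsey t k) ≤ ε * k + 2 + 8 * Real.sqrt (k * Real.log k) := by
      have h3 : (twRamsey t k : ℝ) ≤ 6 * Real.exp (ε * k) *
          Real.exp (8 * Real.sqrt (k * Real.log k)) := by
        refine (twRamsey_le t hk).trans ?_
        have : 2 * ((t : ℝ) + 2) ≤ 6 * Real.exp (ε * k) := by linarith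
        calc 2 * (((t : ℝ) + 2) * Real.exp (8 * Real.sqrt (k * Real.log k)))
            = (2 * ((t : ℝ) + 2)) * Real.exp (8 * Real.sqrt (k * Real.log k)) := by ring
          _ ≤ _ := mul_le_mul_of_nonneg_right this (Real.exp_pos _).le
      have h4 := Real.log_le_log (by linarith) h3
      rw [Real.log_mul (by positivity) (by positivity), Real.log_mul (by norm_num) (by positivity),
        Real.log_exp, Real.log_exp] at h4
      have h6 : Real.log 6 ≤ 2 := by
        rw [Real.log_le_iff_le_exp (by norm_num)]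
        have h7 := Real.exp_one_gt_d9
        have h8 : Real.exp 2 = Real.exp 1 * Real.exp 1 := by rw [← Real.exp_add]; norm_num
        rw [h8]
        nlinarith
      linarith
    have h3 : Real.log (twRamsey t k) ≤ min (ε * k) (Real.log (ramsey k)) + 2 +
        10 * Real.sqrt (k * Real.log k) := by
      have hs0 : 0 ≤ Real.sqrt (k * Real.log k) := Real.sqrt_nonneg _
      rcases le_total (ε * k) (Real.log (ramsey k)) with h | h
      · rw [min_eq_left h]; linarith
      · rw [min_eq_right h]; linarith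
    have h7 : min ε (Real.log (ramsey k) / k) * k = min (ε * k) (Real.log (ramsey k)) := by
      rw [min_mul_of_nonneg _ _ hk0.le, div_mul_cancel₀ _ hk0.ne']
    rw [← h7, err_eq hk] at h3
    have h8 := div_le_div_of_nonneg_right h3 hk0.le
    have h9 : (min ε (Real.log (ramsey k) / k) * k + 2 + 10 * Real.sqrt (Real.log k / k) * k) / k =
        min ε (Real.log (ramsey k) / k) + 2 / k + 10 * Real.sqrt (Real.log k / k) := by
      field_simp
    rw [h9] at h8
    linarith

theorem growth_small {ε : ℝ} (hε : 0 < ε) (hε2 : ε ≤ Real.log 2 / 2) :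
    Tendsto (fun k : ℕ => Real.log (twRamsey ⌊Real.exp (ε * k)⌋₊ k) / k) atTop (𝓝 ε) := by
  have h := growth hε
  have h2 : Tendsto (fun k : ℕ => (Real.log (twRamsey ⌊Real.exp (ε * k)⌋₊ k) / k -
      min ε (Real.log (ramsey k) / k)) + ε) atTop (𝓝 (0 + ε)) := h.add_const ε
  rw [zero_add] at h2
  refine h2.congr' ?_
  filter_upwards [eventually_ge_atTop 3] with k hk
  rw [min_eq_left (hε2.trans (rate_ge hk))]
  ring

/-- Every colouring without monochromatic `K_k` on exponentially many vertices has twin-width at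
least `n ^ (1 - δ)`. -/
theorem large_tww {θ δ : ℝ} (hθ : 0 < θ) (hδ : 0 < δ) (hδ1 : δ < 1) :
    ∃ K : ℕ, ∀ k : ℕ, K ≤ k → ∀ (n t : ℕ) (G : SimpleGraph (Fin n)), NoMono G k →
      TwwLe G t → Real.exp (θ * k) ≤ n → (n : ℝ) ^ (1 - δ) ≤ t := by
  have hup : Tendsto (fun k : ℕ => 2 / (k : ℝ) + 10 * Real.sqrt (Real.log k / k)) atTop (𝓝 0) := by
    simpa using (tendsto_const_div_atTop_nhds_zero_nat 2).add tendsto_err
  have hev := hup.eventually_lt_const (show (0 : ℝ) < δ * θ by positivity)
  obtain ⟨K, hK⟩ := Filter.eventually_atTop.1 hev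
  refine ⟨max K 2, fun k hk n t G hG hc hn => ?_⟩
  have hk2 : 2 ≤ k := (le_max_right _ _).trans hk
  have hk0 : (0 : ℝ) < k := by
    have : 0 < k := by omega
    exact_mod_cast this
  have h1 := hK k ((le_max_left _ _).trans hk)
  have h2 := log_upper_fin hk2 hc hG
  have hs0 : 0 ≤ Real.sqrt (k * Real.log k) := Real.sqrt_nonneg _
  have h2' : Real.log n ≤ Real.log (t + 2) + 10 * Real.sqrt (k * Real.log k) := by linarith
  rw [err_eq hk2] at h2'
  have hnpos : (0 : ℝ) < n := lt_of_lt_of_le (Real.exp_pos _) hn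
  have hlogn : θ * k ≤ Real.log n := by
    have := Real.log_le_log (Real.exp_pos _) hn
    rwa [Real.log_exp] at this
  have h3 : (2 / (k : ℝ) + 10 * Real.sqrt (Real.log k / k)) * k ≤ δ * θ * k :=
    mul_le_mul_of_nonneg_right h1.le hk0.le
  have h4 : (2 / (k : ℝ) + 10 * Real.sqrt (Real.log k / k)) * k =
      2 + 10 * Real.sqrt (Real.log k / k) * k := by
    field_simp
  rw [h4] at h3
  have h5 : δ * θ * k ≤ δ * Real.log n := by nlinarith
  have h6 : (1 - δ) * Real.log n + 2 ≤ Real.log (t + 2) := by linarith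
  have htR : (0 : ℝ) ≤ t := Nat.cast_nonneg t
  have hl3 : Real.log 3 ≤ 2 := by
    rw [Real.log_le_iff_le_exp (by norm_num)]
    have h7 := Real.exp_one_gt_d9
    have h8 : Real.exp 2 = Real.exp 1 * Real.exp 1 := by rw [← Real.exp_add]; norm_num
    rw [h8]
    nlinarith
  have h7 : Real.log ((n : ℝ) ^ (1 - δ) * 3) ≤ Real.log (t + 2) := by
    rw [Real.log_mul (by positivity) (by norm_num), Real.log_rpow hnpos]
    linarith
  have h8 : (n : ℝ) ^ (1 - δ) * 3 ≤ t + 2 := (Real.log_le_log_iff (by positivity) (by linarith)).1 h7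
  have h9 : 1 ≤ (n : ℝ) ^ (1 - δ) := by
    apply Real.one_le_rpow
    · have : (1 : ℝ) ≤ Real.exp (θ * k) := Real.one_le_exp (by positivity)
      linarith
    · linarith
  linarith

end Pool.Agent.T2H11.TW
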