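import Pool.Agent.T2H11.TW.Seq

set_option autoImplicit false

/-!
# Twin-width of lexicographic products
-/

open Finset

namespace Pool.Agent.T2H11.TW

/-- lexicographic product -/
def lex {V W : Type} (G : SimpleGraph V) (H : SimpleGraph W) : SimpleGraph (V × W) where
  Adj x y := G.Adj x.1 y.1 ∨ (x.1 = y.1 ∧ H.Adj x.2 y.2)
  symm := ⟨by
    rintro x y (h | ⟨h1, h2⟩)
    · exact Or.inl h.symm
    · exact Or.inr ⟨h1.symm, h2.symm⟩⟩
  loopless := ⟨by
    rintro x (h | ⟨-, h⟩)
    · exact h.ne rfl
    · exact h.ne rfl⟩

section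

variable {V W : Type} [Fintype V] [Fintype W] [DecidableEq V] [DecidableEq W]
  {G : SimpleGraph V} {H : SimpleGraph W} {t : ℕ}

/-- the part `A × W` -/
def up1 (A : Finset V) : Finset (V × W) := A ×ˢ univ

/-- the part `{a} × B` -/
def up2 (a : V) (B : Finset W) : Finset (V × W) := {a} ×ˢ B

omit [Fintype V] [DecidableEq V] [DecidableEq W] in
lemma mem_up1 {A : Finset V} {x : V × W} : x ∈ up1 (W := W) A ↔ x.1 ∈ A := by
  simp [up1]

omit [Fintype V] [Fintype W] [DecidableEq V] [DecidableEq W] in
lemma mem_up2 {a : V} {B : Finset W} {x : V × W} : x ∈ up2 a B ↔ x.1 = a ∧ x.2 ∈ B := by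
  rw [up2, mem_product, mem_singleton]

omit [Fintype V] [DecidableEq V] [DecidableEq W] in
lemma up1_inj [Nonempty W] : Function.Injective (up1 (V := V) (W := W)) := by
  intro A B h
  ext a
  obtain ⟨w⟩ := ‹Nonempty W›
  have h1 : (a, w) ∈ up1 (W := W) A ↔ (a, w) ∈ up1 (W := W) B := by rw [h]
  simpa [mem_up1] using h1

omit [Fintype V] [Fintype W] [DecidableEq V] [DecidableEq W] in
lemma up2_inj (a : V) : Function.Injective (up2 (W := W) a) := by
  intro A B h
  ext b
  have h1 : (a, b) ∈ up2 a A ↔ (a, b) ∈ up2 a B := by rw [h]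
  simpa [mem_up2] using h1

omit [Fintype V] [DecidableEq W] in
lemma up1_union (A B : Finset V) [DecidableEq (V × W)] :
    up1 (W := W) (A ∪ B) = up1 A ∪ up1 B := by
  ext x
  simp [mem_up1]

omit [Fintype V] [Fintype W] [DecidableEq V] in
lemma up2_union (a : V) (A B : Finset W) [DecidableEq (V × W)] :
    up2 a (A ∪ B) = up2 a A ∪ up2 a B := by
  ext x
  simp only [mem_up2, mem_union]
  tauto

omit [Fintype V] [DecidableEq V] [DecidableEq W] in
lemma homog_up1 {A B : Finset V} (hd : Disjoint A B) (h : Homog G A B) :
    Homog (lex G H) (up1 A) (up1 B) := by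
  rcases h with h | h
  · left
    intro x hx y hy
    rw [mem_up1] at hx hy
    exact Or.inl (h _ hx _ hy)
  · right
    intro x hx y hy hadj
    rw [mem_up1] at hx hy
    rcases hadj with hadj | ⟨he, -⟩
    · exact h _ hx _ hy hadj
    · exact (Finset.disjoint_left.1 hd hx) (by rw [he]; exact hy)

omit [Fintype V] [Fintype W] [DecidableEq V] [DecidableEq W] in
lemma homog_up2 {a : V} {A B : Finset W} (h : Homog H A B) :
    Homog (lex G H) (up2 a A) (up2 a B) := by
  rcases h with h | h
  · left
    intro x hx y hy
    rw [mem_up2] at hx hy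
    exact Or.inr ⟨hx.1.trans hy.1.symm, h _ hx.2 _ hy.2⟩
  · right
    intro x hx y hy hadj
    rw [mem_up2] at hx hy
    rcases hadj with hadj | ⟨-, hadj⟩
    · rw [hx.1, hy.1] at hadj
      exact hadj.ne rfl
    · exact h _ hx.2 _ hy.2 hadj

omit [Fintype V] [Fintype W] [DecidableEq V] [DecidableEq W] in
/-- parts in different fibres are homogeneous -/
lemma homog_fib {a b : V} (hab : a ≠ b) {A B : Finset (V × W)} (hA : ∀ x ∈ A, x.1 = a)
    (hB : ∀ x ∈ B, x.1 = b) : Homog (lex G H) A B := by
  by_cases h : G.Adj a b
  · left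
    intro x hx y hy
    left
    rw [hA x hx, hB y hy]
    exact h
  · right
    intro x hx y hy hadj
    rcases hadj with hadj | ⟨he, -⟩
    · rw [hA x hx, hB y hy] at hadj
      exact h hadj
    · rw [hA x hx, hB y hy] at he
      exact hab he

omit [Fintype V] [DecidableEq V] [DecidableEq W] in
lemma rd_up1 [Nonempty W] {Q : Finset (Finset V)} (hp : IsPart Q) (h : RD G t Q)
    [DecidableEq (Finset (V × W))] : RD (lex G H) t (Q.image up1) := by
  classical
  refine rd_of fun A hA F hF => ?_
  rw [mem_image] at hA
  obtain ⟨A, hA, rfl⟩ := hA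
  have h1 : F ⊆ (Q.filter (fun B => B ≠ A ∧ ¬ Homog G A B)).image up1 := by
    intro B hB0
    obtain ⟨hB, h2, h3⟩ := hF B hB0
    rw [mem_image] at hB
    obtain ⟨B, hB, rfl⟩ := hB
    rw [mem_image]
    refine ⟨B, ?_, rfl⟩
    rw [mem_filter]
    have hne : B ≠ A := by
      rintro rfl
      exact h2 rfl
    exact ⟨hB, hne, fun hH => h3 (homog_up1 (hp.disj A hA B hB hne.symm) hH)⟩
  refine (card_le_card h1).trans (card_image_le.trans ?_)
  exact h.le hA _ fun B hB => by rw [mem_filter] at hB; exact hB

omit [Fintype V] in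
lemma con_up1 [Nonempty W] : ∀ (s : ℕ) (Q : Finset (Finset V)), IsPart Q → Con G t s Q →
    Con (lex G H) t s (Q.image up1) := by
  intro s
  induction s with
  | zero => intro Q hp h; exact Con.zero (rd_up1 hp h.rd)
  | succ s ih =>
    intro Q hp h
    obtain ⟨h1, A, hA, B, hB, hAB, h2⟩ := h.head'
    have h3 := ih _ (isPart_merge hp hA hB) h2
    refine Con.step' (rd_up1 hp h1) (mem_image_of_mem _ hA) (mem_image_of_mem _ hB)
      (fun he => hAB (up1_inj he)) ?_
    have he : (insert (A ∪ B) ((Q.erase A).erase B)).image (up1 (W := W)) =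
        insert (up1 A ∪ up1 B) (((Q.image up1).erase (up1 A)).erase (up1 B)) := by
      rw [image_insert, image_erase up1_inj, image_erase up1_inj, up1_union]
    rw [← he]
    exact h3

omit [Fintype V] in
/-- contraction inside one fibre; `R` are the other parts -/
lemma con_up2 {a : V} {R : Finset (Finset (V × W))} [Nonempty W]
    (hR1 : ∀ X ∈ R, X.Nonempty ∧ ∃ b, a ≠ b ∧ ∀ x ∈ X, x.1 = b)
    (hR2 : ∀ X ∈ R, ∀ Y ∈ R, X ≠ Y → Homog (lex G H) X Y) {s' : ℕ}
    (hfin : Con (lex G H) t s' (insert (up2 a univ) R)) :
    ∀ (s : ℕ) (Q : Finset (Finset W)), IsPart Q → Q.card = s + 1 → Con H t s Q →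
      Con (lex G H) t (s + s') (Q.image (up2 a) ∪ R) := by
  have hrd : ∀ Q : Finset (Finset W), RD H t Q → RD (lex G H) t (Q.image (up2 a) ∪ R) := by
    intro Q h
    refine rd_of fun A hA F hF => ?_
    rw [mem_union, mem_image] at hA
    rcases hA with ⟨A, hA, rfl⟩ | hA
    · classical
      have h1 : F ⊆ (Q.filter (fun B => B ≠ A ∧ ¬ Homog H A B)).image (up2 a) := by
        intro B hB0
        obtain ⟨hB, h2, h3⟩ := hF B hB0
        rw [mem_union, mem_image] at hB
        rcases hB with hB | hB
        · obtain ⟨B, hB, rfl⟩ := hB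
          rw [mem_image]
          refine ⟨B, ?_, rfl⟩
          rw [mem_filter]
          exact ⟨hB, fun he => h2 (by rw [he]), fun hH => h3 (homog_up2 hH)⟩
        · exfalso
          obtain ⟨-, b, hab, hb⟩ := hR1 B hB
          exact h3 (homog_fib hab (fun x hx => (mem_up2.1 hx).1) hb)
      refine (card_le_card h1).trans (card_image_le.trans ?_)
      exact h.le hA _ fun B hB => by rw [mem_filter] at hB; exact hB
    · have h1 : F = ∅ := by
        rw [eq_empty_iff_forall_notMem]
        intro B hB0
        obtain ⟨hB, h2, h3⟩ := hF B hB0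
        rw [mem_union, mem_image] at hB
        rcases hB with ⟨B, hB, rfl⟩ | hB
        · obtain ⟨-, b, hab, hb⟩ := hR1 A hA
          exact h3 (homog_fib hab.symm hb (fun x hx => (mem_up2.1 hx).1))
        · exact h3 (hR2 A hA B hB (Ne.symm h2))
      rw [h1]
      simp
  have hnot : ∀ A : Finset W, A.Nonempty → up2 a A ∉ R := by
    intro A hA hc
    obtain ⟨-, b, hab, hb⟩ := hR1 _ hc
    obtain ⟨w, hw⟩ := hA
    exact hab (hb (a, w) (mem_up2.2 ⟨rfl, hw⟩))
  intro s
  induction s with
  | zero =>
    intro Q hp hc _
    have hQ : Q = {univ} := by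
      obtain ⟨A, hA⟩ := card_eq_one.1 hc
      rw [hA]
      congr 1
      ext w
      simp only [mem_univ, iff_true]
      obtain ⟨B, hB, hw⟩ := hp.cover w
      rw [hA, mem_singleton] at hB
      rwa [← hB]
    rw [hQ, image_singleton, zero_add, singleton_union]
    exact hfin
  | succ s ih =>
    intro Q hp hc h
    obtain ⟨h1, A, hA, B, hB, hAB, h2⟩ := h.head'
    have hc2 := card_merge hp hA hB hAB
    have h3 := ih _ (isPart_merge hp hA hB) (by omega) h2
    have e0 : s + 1 + s' = (s + s') + 1 := by omega
    rw [e0]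
    refine Con.step' (hrd Q h1) (mem_union_left _ (mem_image_of_mem _ hA))
      (mem_union_left _ (mem_image_of_mem _ hB)) (fun he => hAB (up2_inj a he)) ?_
    have he : (insert (A ∪ B) ((Q.erase A).erase B)).image (up2 a) ∪ R =
        insert (up2 a A ∪ up2 a B) (((Q.image (up2 a) ∪ R).erase (up2 a A)).erase (up2 a B)) := by
      rw [image_insert, image_erase (up2_inj a), image_erase (up2_inj a), up2_union,
        insert_union, erase_union_distrib, erase_union_distrib,
        erase_eq_of_notMem (hnot A (hp.ne A hA)), erase_eq_of_notMem (hnot B (hp.ne B hB))]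
    rw [← he]
    exact h3

/-- **Lexicographic products.** -/
theorem lex_tww [Nonempty V] [Nonempty W] (hG : TwwLe G t) (hH : TwwLe H t) :
    TwwLe (lex G H) t := by
  classical
  rw [twwLe_iff_con] at hG hH
  have hV : 0 < Fintype.card V := Fintype.card_pos
  have hW : 0 < Fintype.card W := Fintype.card_pos
  have cardS : ∀ (U : Type) [Fintype U] [DecidableEq (Finset U)],
      (Finset.univ.image (fun v : U => ({v} : Finset U))).card = Fintype.card U := by
    intro U _ _
    rw [card_image_of_injective _ (fun a b hab => by simpa using hab), card_univ]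
  -- the partition after contracting the fibres of `D`
  let Pi : Finset V → Finset (Finset (V × W)) := fun D =>
    D.image (fun a => up2 a univ) ∪ ((univ \ D) ×ˢ (univ : Finset W)).image (fun x => {x})
  have main : ∀ (d : ℕ) (D : Finset V), D.card + d = Fintype.card V →
      Con (lex G H) t (d * (Fintype.card W - 1) + (Fintype.card V - 1)) (Pi D) := by
    intro d
    induction d with
    | zero =>
      intro D hD
      have hDu : D = univ := by
        rw [← card_eq_iff_eq_univ]; omega
      have h1 := con_up1 (G := G) (H := H) (W := W) (t := t) (Fintype.card V - 1) _ isPart_zero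
        (con_inst _ _ hG)
      have h2 : Pi D = (Finset.univ.image (fun v : V => ({v} : Finset V))).image up1 := by
        rw [image_image]
        show D.image (fun a => up2 a univ) ∪
          ((univ \ D) ×ˢ (univ : Finset W)).image (fun x => {x}) = _
        rw [hDu, sdiff_self, Finset.bot_eq_empty, empty_product, image_empty, union_empty]
        rfl
      rw [h2, Nat.zero_mul, zero_add]
      exact h1
    | succ d ih =>
      intro D hD
      obtain ⟨a, ha⟩ : ∃ a, a ∉ D := by
        by_contra hcon
        push Not at hcon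
        have : D = univ := by
          ext x; simp [hcon x]
        rw [this, card_univ] at hD
        omega
      have h1 := ih (insert a D) (by rw [card_insert_of_notMem ha]; omega)
      -- the other parts
      set R : Finset (Finset (V × W)) := D.image (fun a => up2 a univ) ∪
        ((univ \ insert a D) ×ˢ (univ : Finset W)).image (fun x => {x}) with hR
      have hfib : ∀ X ∈ R, X.Nonempty ∧ ∃ b, a ≠ b ∧ (∀ x ∈ X, x.1 = b) := by
        intro X hX
        rw [hR, mem_union, mem_image, mem_image] at hX
        rcases hX with ⟨b, hb, rfl⟩ | ⟨x, hx, rfl⟩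
        · obtain ⟨w⟩ := ‹Nonempty W›
          exact ⟨⟨(b, w), by simp [mem_up2]⟩, b, fun he => ha (he ▸ hb),
            fun x hx => (mem_up2.1 hx).1⟩
        · refine ⟨singleton_nonempty x, x.1, ?_, ?_⟩
          · rw [mem_product, mem_sdiff, mem_insert] at hx
            exact fun he => hx.1.2 (Or.inl he.symm)
          · intro y hy
            rw [mem_singleton] at hy
            rw [hy]
      have hsing : ∀ x y : V × W, Homog (lex G H) {x} {y} := by
        intro x y
        by_cases h : (lex G H).Adj x y
        · left; intro u hu v hv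
          rw [mem_singleton] at hu hv; rw [hu, hv]; exact h
        · right; intro u hu v hv
          rw [mem_singleton] at hu hv; rw [hu, hv]; exact h
      have hhom : ∀ X ∈ R, ∀ Y ∈ R, X ≠ Y → Homog (lex G H) X Y := by
        intro X hX Y hY hXY
        rw [hR, mem_union, mem_image, mem_image] at hX hY
        rcases hX with ⟨b, hb, rfl⟩ | ⟨x, hx, rfl⟩ <;> rcases hY with ⟨c, hc, rfl⟩ | ⟨y, hy, rfl⟩
        · exact homog_fib (fun he => hXY (by rw [he])) (fun x hx => (mem_up2.1 hx).1)
            (fun x hx => (mem_up2.1 hx).1)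
        · refine homog_fib (b := y.1) (fun he => ?_) (fun x hx => (mem_up2.1 hx).1)
            (fun z hz => by rw [mem_singleton] at hz; rw [hz])
          rw [mem_product, mem_sdiff, mem_insert] at hy
          exact hy.1.2 (Or.inr (he ▸ hb))
        · refine homog_fib (a := x.1) (fun he => ?_)
            (fun z hz => by rw [mem_singleton] at hz; rw [hz]) (fun x hx => (mem_up2.1 hx).1)
          rw [mem_product, mem_sdiff, mem_insert] at hx
          exact hx.1.2 (Or.inr (he ▸ hc))
        · exact hsing x y
      have h2 : Pi (insert a D) = insert (up2 a univ) R := by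
        show (insert a D).image (fun a => up2 a univ) ∪ _ = _
        rw [image_insert, insert_union]
      rw [h2] at h1
      have h3 := con_up2 hfib hhom h1 (Fintype.card W - 1) _ isPart_zero
        (by rw [cardS]; omega) (con_inst _ _ hH)
      have h4 : Pi D = (Finset.univ.image (fun w : W => ({w} : Finset W))).image (up2 a) ∪ R := by
        ext X
        show X ∈ D.image (fun a => up2 a univ) ∪
          ((univ \ D) ×ˢ (univ : Finset W)).image (fun x => {x}) ↔ _
        rw [hR, image_image]
        simp only [mem_union, mem_image, mem_product, mem_sdiff, mem_univ, true_and, and_true,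
          mem_insert, Function.comp_apply]
        constructor
        · rintro (⟨b, hb, rfl⟩ | ⟨x, hx, rfl⟩)
          · exact Or.inr (Or.inl ⟨b, hb, rfl⟩)
          · by_cases hxa : x.1 = a
            · refine Or.inl ⟨x.2, ?_⟩
              ext y
              rw [mem_up2, mem_singleton, mem_singleton, Prod.ext_iff, hxa]
            · exact Or.inr (Or.inr ⟨x, by tauto, rfl⟩)
        · rintro (⟨w, rfl⟩ | ⟨b, hb, rfl⟩ | ⟨x, hx, rfl⟩)
          · refine Or.inr ⟨(a, w), ha, ?_⟩
            ext y
            rw [mem_up2, mem_singleton, mem_singleton, Prod.ext_iff]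
          · exact Or.inl ⟨b, hb, rfl⟩
          · exact Or.inr ⟨x, by tauto, rfl⟩
      rw [h4]
      convert h3 using 1
      rw [Nat.succ_mul]
      omega
  rw [twwLe_iff_con]
  have h := main (Fintype.card V) ∅ (by simp)
  have e1 : Pi ∅ = Finset.univ.image (fun x : V × W => ({x} : Finset (V × W))) := by
    show (∅ : Finset V).image (fun a => up2 a univ) ∪
      ((univ \ ∅) ×ˢ (univ : Finset W)).image (fun x => {x}) = _
    rw [image_empty, empty_union, sdiff_empty, univ_product_univ]
  rw [e1] at h
  have e2 : Fintype.card V * (Fintype.card W - 1) + (Fintype.card V - 1) =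
      Fintype.card (V × W) - 1 := by
    rw [Fintype.card_prod, Nat.mul_sub, mul_one]
    have : Fintype.card V ≤ Fintype.card V * Fintype.card W := Nat.le_mul_of_pos_right _ hW
    omega
  rw [e2] at h
  exact con_inst _ _ h

end

end Pool.Agent.T2H11.TW
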