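import Pool.Agent.T2H11.TW.Lex
import Pool.Agent.R51.Stair.Asym

set_option autoImplicit false

/-!
# Lexicographic powers of random graphs
-/

open Finset

namespace Pool.Agent.T2H11.TW

lemma compl_lex {V W : Type} (G : SimpleGraph V) (H : SimpleGraph W) :
    (lex G H)ᶜ = lex Gᶜ Hᶜ := by
  ext x y
  rw [SimpleGraph.compl_adj]
  show x ≠ y ∧ ¬ (G.Adj x.1 y.1 ∨ (x.1 = y.1 ∧ H.Adj x.2 y.2)) ↔
    Gᶜ.Adj x.1 y.1 ∨ (x.1 = y.1 ∧ Hᶜ.Adj x.2 y.2)
  rw [SimpleGraph.compl_adj, SimpleGraph.compl_adj, Ne, Prod.ext_iff]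
  by_cases h : x.1 = y.1
  · have : ¬ G.Adj x.1 y.1 := fun hc => hc.ne h
    tauto
  · tauto

lemma lex_cliqueFree {V W : Type} {G : SimpleGraph V} {H : SimpleGraph W} {a b : ℕ}
    (hG : G.CliqueFree (a + 1)) (hH : H.CliqueFree (b + 1)) :
    (lex G H).CliqueFree (a * b + 1) := by
  classical
  intro T hT
  have small : ∀ {U : Type} (K : SimpleGraph U) (c : ℕ) (S : Finset U), K.CliqueFree (c + 1) →
      K.IsClique (S : Set U) → S.card ≤ c := by
    intro U K c S hK hS
    by_contra hc
    push Not at hc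
    obtain ⟨W', hW', hc'⟩ := Finset.exists_subset_card_eq (s := S) (n := c + 1) (by omega)
    refine hK W' ?_
    rw [SimpleGraph.isNClique_iff]
    exact ⟨hS.subset (by exact_mod_cast hW'), hc'⟩
  have h1 : (T.image Prod.fst).card ≤ a := by
    refine small G a _ hG ?_
    intro u hu v hv huv
    rw [mem_coe, mem_image] at hu hv
    obtain ⟨x, hx, rfl⟩ := hu
    obtain ⟨y, hy, rfl⟩ := hv
    have hxy : x ≠ y := by
      rintro rfl
      exact huv rfl
    rcases hT.isClique (mem_coe.2 hx) (mem_coe.2 hy) hxy with h | ⟨h, -⟩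
    · exact h
    · exact absurd h huv
  have h2 : T.card ≤ b * (T.image Prod.fst).card := by
    refine card_le_mul_card_image T b ?_
    intro u _
    have h3 : ((T.filter (fun x => x.1 = u)).image Prod.snd).card =
        (T.filter (fun x => x.1 = u)).card := by
      apply card_image_of_injOn
      intro x hx y hy hxy
      rw [mem_coe, mem_filter] at hx hy
      exact Prod.ext (hx.2.trans hy.2.symm) hxy
    rw [← h3]
    refine small H b _ hH ?_
    intro p hp q hq hpq
    rw [mem_coe, mem_image] at hp hq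
    obtain ⟨x, hx, rfl⟩ := hp
    obtain ⟨y, hy, rfl⟩ := hq
    rw [mem_filter] at hx hy
    have hxy : x ≠ y := by
      rintro rfl
      exact hpq rfl
    rcases hT.isClique (mem_coe.2 hx.1) (mem_coe.2 hy.1) hxy with h | ⟨-, h⟩
    · exact absurd (hx.2.trans hy.2.symm) h.ne
    · exact h
  rw [hT.card_eq] at h2
  have h3 : b * (T.image Prod.fst).card ≤ b * a := Nat.mul_le_mul_left _ h1
  have : b * a = a * b := mul_comm _ _
  omega

/-- transport along a bijection -/
lemma TwwLe.iso {V W : Type} [Fintype V] [Fintype W] {G : SimpleGraph V} {H : SimpleGraph W} {t : ℕ}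
    (e : V ≃ W) (he : ∀ x y, H.Adj (e x) (e y) ↔ G.Adj x y) (h : TwwLe G t) : TwwLe H t := by
  classical
  obtain ⟨P, h0, hs, hr⟩ := h
  have hcard : Fintype.card W = Fintype.card V := (Fintype.card_congr e).symm
  set f : Finset V ↪ Finset W := e.finsetCongr.toEmbedding with hf
  have hfmem : ∀ (A : Finset V) (x : V), e x ∈ f A ↔ x ∈ A := by
    intro A x
    simp [hf]
  have hfun : ∀ A B : Finset V, f (A ∪ B) = f A ∪ f B := by
    intro A B
    simp [hf, Finset.map_union]
  have hhom : ∀ A B : Finset V, Homog G A B → Homog H (f A) (f B) := by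
    intro A B hAB
    rcases hAB with hAB | hAB
    · left
      intro a ha b hb
      obtain ⟨a, rfl⟩ := e.surjective a
      obtain ⟨b, rfl⟩ := e.surjective b
      rw [hfmem] at ha hb
      exact (he a b).2 (hAB a ha b hb)
    · right
      intro a ha b hb
      obtain ⟨a, rfl⟩ := e.surjective a
      obtain ⟨b, rfl⟩ := e.surjective b
      rw [hfmem] at ha hb
      rw [he a b]
      exact hAB a ha b hb
  refine ⟨fun i => (P i).map f, ?_, ?_, ?_⟩
  · show (P 0).map f = _
    rw [h0]
    ext A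
    simp only [mem_map, mem_image, mem_univ, true_and]
    constructor
    · rintro ⟨B, ⟨v, rfl⟩, rfl⟩
      refine ⟨e v, ?_⟩
      simp [hf]
    · rintro ⟨w, rfl⟩
      refine ⟨{e.symm w}, ⟨e.symm w, rfl⟩, ?_⟩
      simp [hf]
  · intro i hi
    rw [hcard] at hi
    obtain ⟨A, hA, B, hB, hAB, hP⟩ := hs i hi
    refine ⟨f A, mem_map_of_mem f hA, f B, mem_map_of_mem f hB, fun hc => hAB (f.injective hc), ?_⟩
    show (P (i + 1)).map f = _
    rw [hP, map_insert, map_erase, map_erase, hfun]
  · intro i hi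
    rw [hcard] at hi
    refine rd_of ?_
    intro A' hA' F hF
    obtain ⟨A, hA, rfl⟩ := mem_map.1 hA'
    have h1 : F ⊆ ((P i).filter (fun B => B ≠ A ∧ ¬ Homog G A B)).map f := by
      intro B' hB0
      obtain ⟨hB', h2, h3⟩ := hF B' hB0
      obtain ⟨B, hB, rfl⟩ := mem_map.1 hB'
      refine mem_map_of_mem f ?_
      rw [mem_filter]
      exact ⟨hB, fun hc => h2 (by rw [hc]), fun hc => h3 (hhom A B hc)⟩
    refine (card_le_card h1).trans ?_
    rw [card_map]
    exact RD.le (hr i hi) hA _ fun B hB => by rw [mem_filter] at hB; exact hB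

/-- powers -/
theorem power_exists {m κ t : ℕ} (G0 : SimpleGraph (Fin m)) (hm : 1 ≤ m) (hmt : m ≤ t + 1)
    (h1 : G0.CliqueFree (κ + 1)) (h2 : G0ᶜ.CliqueFree (κ + 1)) : ∀ L : ℕ,
    ∃ (V : Type) (_ : Fintype V) (_ : Nonempty V) (G : SimpleGraph V), Fintype.card V = m ^ L ∧
      TwwLe G t ∧ G.CliqueFree (κ ^ L + 1) ∧ Gᶜ.CliqueFree (κ ^ L + 1) := by
  classical
  intro L
  induction L with
  | zero =>
    refine ⟨Fin 1, inferInstance, inferInstance, ⊥, by simp, twwLe_all _ (by simp), ?_, ?_⟩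
    · intro T hT
      have := hT.card_eq
      have h3 : T.card ≤ 1 := by simpa using card_le_univ T
      rw [pow_zero] at this
      omega
    · intro T hT
      have := hT.card_eq
      have h3 : T.card ≤ 1 := by simpa using card_le_univ T
      rw [pow_zero] at this
      omega
  | succ L ih =>
    obtain ⟨V, i1, i2, G, hV, ht, hc1, hc2⟩ := ih
    have : Nonempty (Fin m) := ⟨⟨0, hm⟩⟩
    refine ⟨Fin m × V, inferInstance, inferInstance, lex G0 G, ?_, ?_, ?_, ?_⟩
    · rw [Fintype.card_prod, Fintype.card_fin, hV, pow_succ, mul_comm]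
    · exact lex_tww (twwLe_all G0 (by rw [Fintype.card_fin]; exact hmt)) ht
    · have := lex_cliqueFree h1 hc1
      rwa [pow_succ, mul_comm (κ ^ L)]
    · rw [compl_lex]
      have := lex_cliqueFree h2 hc2
      rwa [pow_succ, mul_comm (κ ^ L)]

end Pool.Agent.T2H11.TW
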