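import Pool.Agent.T2H11.TW.Rec
import Pool.Agent.R51.Stair.Asym

set_option autoImplicit false

/-!
# Explicit bounds
-/

open Finset H110R2

namespace Pool.Agent.T2H11.TW

open Pool.Agent.R51.Stair (NoMono ramsey ramsey_pos log_four_lt)

lemma noCl_of_cliqueFree {V : Type} [Fintype V] [DecidableEq V] {G : SimpleGraph V} {k : ℕ}
    (h : G.CliqueFree k) : NoCl G k Finset.univ := fun T _ => h T

/-- numerical choice of the parameter -/
lemma par_ok {p : ℕ} (hp : 2 ≤ p) :
    Real.exp (-(2 * Real.log p / p)) ^ p + Real.exp (-(2 * Real.log p / p)) ≤ 1 := by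
  have hpR : (2 : ℝ) ≤ p := by exact_mod_cast hp
  have hp0 : (0 : ℝ) < p := by linarith
  set y : ℝ := 2 * Real.log p / p with hy
  have hlog : Real.log 2 ≤ Real.log p := Real.log_le_log (by norm_num) hpR
  have hl2 := Real.log_two_gt_d9
  have hy0 : 0 < y := by
    rw [hy]
    have : 0 < Real.log p := by linarith
    positivity
  -- `y ≤ 3 / 4`
  have hy1 : y ≤ 3 / 4 := by
    -- log p = log (p / e) + 1 ≤ p / e
    have h1 : Real.log p ≤ p * (3 / 8) := by
      have h2 : Real.log (p * (3 / 8)) ≤ p * (3 / 8) - 1 := Real.log_le_sub_one_of_pos (by positivity)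
      rw [Real.log_mul (by positivity) (by norm_num)] at h2
      have h3 : Real.log (3 / 8 : ℝ) ≥ -1 := by
        rw [ge_iff_le, Real.le_log_iff_exp_le (by norm_num), Real.exp_neg]
        have h4 := Real.exp_one_gt_d9
        rw [inv_le_comm₀ (Real.exp_pos _) (by norm_num)]
        norm_num
        linarith
      linarith
    rw [hy, div_le_iff₀ hp0]
    linarith
  have e1 : Real.exp (-y) ^ p = 1 / (p : ℝ) ^ 2 := by
    rw [← Real.exp_nat_mul]
    have : (p : ℝ) * -y = -(2 * Real.log p) := by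
      rw [hy]; field_simp
    rw [this, Real.exp_neg, show 2 * Real.log p = Real.log ((p : ℝ) ^ 2) by
      rw [Real.log_pow]; push_cast; ring, Real.exp_log (by positivity), one_div]
  have e2 : Real.exp (-y) ≤ 1 - y + y ^ 2 / 2 := by
    -- use exp(-y) ≤ 1 / (1 + y + y^2/2)
    have h1 : 1 + y + y ^ 2 / 2 ≤ Real.exp y := Real.quadratic_le_exp_of_nonneg hy0.le
    rw [Real.exp_neg]
    rw [inv_le_comm₀ (Real.exp_pos _) (by nlinarith)]
    refine le_trans ?_ h1
    rw [inv_le_iff_one_le_mul₀ (by nlinarith)]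
    nlinarith [sq_nonneg y, sq_nonneg (y ^ 2)]
  rw [e1]
  -- 1 / p^2 ≤ y - y^2 / 2
  have h3 : 1 / (p : ℝ) ^ 2 ≤ y - y ^ 2 / 2 := by
    have h4 : y * (5 / 8) ≤ y - y ^ 2 / 2 := by nlinarith
    refine le_trans ?_ h4
    rw [hy, div_le_iff₀ (by positivity)]
    have h5 : 2 * Real.log p / p * (5 / 8) * (p : ℝ) ^ 2 = (5 / 4) * Real.log p * p := by
      field_simp; ring
    rw [h5]
    nlinarith
  linarith

/-- finite bound -/
theorem finite_upper {V : Type} [Fintype V] {t k p : ℕ} {G : SimpleGraph V} (h : TwwLe G t)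
    (hr : G.CliqueFree k) (hb : Gᶜ.CliqueFree k) (hp : 2 ≤ p) :
    (Fintype.card V : ℝ) ≤ 2 * ((t + 2) * 4 ^ p) * Real.exp (4 * k * Real.log p / p) := by
  classical
  have h1 := main_bound h (M := 4 ^ p) rfl (Real.exp_pos (-(2 * Real.log p / p))) (par_ok hp)
    (Finset.univ : Finset V).card Finset.univ le_rfl k k (noCl_of_cliqueFree hr)
    (noCl_of_cliqueFree hb)
  rw [← Real.exp_nat_mul, card_univ] at h1
  push_cast at h1
  have e : ((k : ℝ) + k) * -(2 * Real.log p / p) = -(4 * k * Real.log p / p) := by ring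
  rw [e, Real.exp_neg] at h1
  have h2 : 0 < Real.exp (4 * k * Real.log p / p) := Real.exp_pos _
  have h3 : ((Fintype.card V : ℝ) + (t + 2) * 4 ^ p) ≤
      2 * ((t + 2) * 4 ^ p) * Real.exp (4 * k * Real.log p / p) := by
    have := mul_le_mul_of_nonneg_right h1 h2.le
    rwa [mul_assoc, inv_mul_cancel₀ h2.ne', mul_one] at this
  have h4 : (0 : ℝ) ≤ (t + 2) * 4 ^ p := by positivity
  linarith

/-- `log n ≤ log (t + 2) + 8 √(k log k)` -/
theorem log_upper {V : Type} [Fintype V] {t k : ℕ} {G : SimpleGraph V} (hk : 2 ≤ k)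
    (h : TwwLe G t) (hr : G.CliqueFree k) (hb : Gᶜ.CliqueFree k) :
    Real.log (Fintype.card V) ≤ Real.log (t + 2) + 8 * Real.sqrt (k * Real.log k) := by
  have hkR : (2 : ℝ) ≤ k := by exact_mod_cast hk
  have hk0 : (0 : ℝ) < k := by linarith
  have hl2 := Real.log_two_gt_d9
  have hlk : Real.log 2 ≤ Real.log k := Real.log_le_log (by norm_num) hkR
  set P : ℝ := Real.sqrt (k * Real.log k) with hP
  have hPsq : P ^ 2 = k * Real.log k := Real.sq_sqrt (by positivity)
  have hP1 : 1.17 ≤ P := by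
    rw [hP]
    apply Real.le_sqrt_of_sq_le
    nlinarith
  have hPk : P ≤ k := by
    rw [hP]
    apply Real.sqrt_le_iff.2
    refine ⟨hk0.le, ?_⟩
    have : Real.log k ≤ k := (Real.log_le_sub_one_of_pos hk0).trans (by linarith)
    nlinarith
  set p : ℕ := ⌈P⌉₊ with hp
  have hpP : P ≤ p := Nat.le_ceil P
  have hpP1 : (p : ℝ) < P + 1 := Nat.ceil_lt_add_one (by linarith)
  have hp2 : 2 ≤ p := by
    have : (1 : ℝ) < p := by linarith
    have : 1 < p := by exact_mod_cast this
    omega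
  have hpk : p ≤ k := Nat.ceil_le.2 hPk
  have hp0 : (0 : ℝ) < p := by linarith
  rcases Nat.eq_zero_or_pos (Fintype.card V) with h0 | h0
  · rw [h0]
    simp only [Nat.cast_zero, Real.log_zero]
    have : 0 ≤ Real.log ((t : ℝ) + 2) := Real.log_nonneg (by
      have : (0 : ℝ) ≤ t := Nat.cast_nonneg t
      linarith)
    positivity
  have hn0 : (0 : ℝ) < Fintype.card V := by exact_mod_cast h0
  have h1 := Real.log_le_log hn0 (finite_upper h hr hb hp2)
  rw [Real.log_mul (by positivity) (Real.exp_pos _).ne', Real.log_exp,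
    Real.log_mul (by norm_num) (by positivity), Real.log_mul (by positivity) (by positivity),
    Real.log_pow] at h1
  have h2 : 4 * k * Real.log p / p ≤ 4 * P := by
    rw [div_le_iff₀ hp0]
    have h3 : Real.log p ≤ Real.log k := Real.log_le_log hp0 (by exact_mod_cast hpk)
    have h4 : 4 * (k : ℝ) * Real.log p ≤ 4 * P ^ 2 := by
      rw [hPsq]; nlinarith
    nlinarith
  have h3 := log_four_lt
  have h4 : (p : ℝ) * Real.log 4 ≤ (P + 1) * 1.39 := by
    have h5 : 0 ≤ Real.log 4 := Real.log_nonneg (by norm_num)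
    nlinarith
  have h5 := Real.log_two_lt_d9
  linarith

end Pool.Agent.T2H11.TW
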