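import Pool.Agent.T2H11.TW.Basic

set_option autoImplicit false

/-!
# The recursion
-/

open Finset H110R2

namespace Pool.Agent.T2H11.TW

lemma noCl_join {V : Type*} [DecidableEq V] {H : SimpleGraph V} {a p : ℕ} {S C S1 T : Finset V}
    (h : NoCl H (a + p) S) (hC : C ⊆ S) (hS1 : S1 ⊆ S) (hadj : ∀ c ∈ C, ∀ v ∈ S1, H.Adj c v)
    (hT : T ⊆ C) (hTc : H.IsNClique p T) : NoCl H a S1 := by
  intro W hW hWc
  have hdis : Disjoint T W := by
    rw [Finset.disjoint_left]
    intro v hv hv'
    exact (hadj v (hT hv) v (hW hv')).ne rfl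
  refine h (T ∪ W) (union_subset (hT.trans hC) (hW.trans hS1)) ?_
  rw [SimpleGraph.isNClique_iff]
  refine ⟨?_, ?_⟩
  · intro u hu v hv huv
    rw [mem_coe, mem_union] at hu hv
    rcases hu with hu | hu <;> rcases hv with hv | hv
    · exact hTc.isClique (mem_coe.2 hu) (mem_coe.2 hv) huv
    · exact hadj u (hT hu) v (hW hv)
    · exact (hadj v (hT hv) u (hW hu)).symm
    · exact hWc.isClique (mem_coe.2 hu) (mem_coe.2 hv) huv
  · rw [card_union_of_disjoint hdis, hTc.card_eq, hWc.card_eq, add_comm]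

/-- a set of at least `4 ^ p` vertices contains a monochromatic `K_p` -/
lemma exists_mono {V : Type*} [DecidableEq V] (G : SimpleGraph V) (p : ℕ) {C : Finset V}
    (hC : 4 ^ p ≤ C.card) : (∃ T ⊆ C, G.IsNClique p T) ∨ (∃ T ⊆ C, Gᶜ.IsNClique p T) := by
  by_contra hcon
  push Not at hcon
  obtain ⟨h1, h2⟩ := hcon
  have h := es_bound G (x := 1 / 2) (y := 1 / 2) (by norm_num) (by norm_num) (by norm_num)
    C.card C le_rfl p p h1 h2
  have h3 : (1 / 2 : ℝ) ^ p * (1 / 2 : ℝ) ^ p = 1 / 4 ^ p := by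
    rw [← mul_pow]; norm_num [div_pow]
  rw [mul_assoc, h3, mul_one_div, div_le_one (by positivity)] at h
  have h4 : ((4 : ℝ)) ^ p ≤ C.card := by exact_mod_cast hC
  linarith

/-- **Main bound.** -/
theorem main_bound {V : Type} [Fintype V] [DecidableEq V] {t p M : ℕ} {G : SimpleGraph V}
    (h : TwwLe G t) (hM : M = 4 ^ p)
    {x : ℝ} (hx0 : 0 < x) (hx : x ^ p + x ≤ 1) :
    ∀ (m : ℕ) (S : Finset V), S.card ≤ m → ∀ a b : ℕ, NoCl G a S → NoCl Gᶜ b S →
      ((S.card : ℝ) + (t + 2) * M) * x ^ (a + b) ≤ 2 * ((t + 2) * M) := by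
  classical
  have hM1 : 1 ≤ M := by rw [hM]; exact Nat.one_le_pow _ _ (by norm_num)
  have hMR : (1 : ℝ) ≤ M := by exact_mod_cast hM1
  have hxp : 0 < x ^ p := pow_pos hx0 p
  have hx1 : x ≤ 1 := by linarith
  set D : ℝ := (t + 2) * M with hD
  have hDM : 2 * (M : ℝ) ≤ D := by
    rw [hD]
    have : (0 : ℝ) ≤ t * M := by positivity
    nlinarith
  have hD0 : 0 < D := by linarith
  intro m
  induction m with
  | zero =>
    intro S hS a b _ _
    have h0 : (S.card : ℝ) = 0 := by
      have : S.card = 0 := by omega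
      rw [this]; simp
    rw [h0, zero_add]
    have : x ^ (a + b) ≤ 1 := pow_le_one₀ hx0.le hx1
    nlinarith
  | succ m ih =>
    intro S hS a b ha hb
    have hxab : x ^ (a + b) ≤ 1 := pow_le_one₀ hx0.le hx1
    have hxab0 : 0 < x ^ (a + b) := pow_pos hx0 _
    rcases lt_or_ge S.card M with hlt | hge
    · have h1 : (S.card : ℝ) < M := by exact_mod_cast hlt
      have h2 : (S.card : ℝ) + D ≤ 2 * D := by linarith
      calc ((S.card : ℝ) + D) * x ^ (a + b) ≤ ((S.card : ℝ) + D) * 1 :=
            mul_le_mul_of_nonneg_left hxab (by positivity)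
        _ ≤ 2 * D := by linarith
    obtain ⟨C, hCS, hCM, hC2, Z, hZS, hZc, hZ⟩ := exists_part h hM1 hge
    have hCne : C.Nonempty := by
      rw [← card_pos]; omega
    obtain ⟨c0, hc0⟩ := hCne
    set SR := (S \ (C ∪ Z)).filter (fun v => ∀ c ∈ C, G.Adj c v) with hSR
    set SB := (S \ (C ∪ Z)).filter (fun v => ∀ c ∈ C, ¬ G.Adj c v) with hSB
    have hSRS : SR ⊆ S := (filter_subset _ _).trans sdiff_subset
    have hSBS : SB ⊆ S := (filter_subset _ _).trans sdiff_subset
    have hcov : S ⊆ (SR ∪ SB) ∪ (C ∪ Z) := by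
      intro v hv
      by_cases hvC : v ∈ C
      · simp [hvC]
      by_cases hvZ : v ∈ Z
      · simp [hvZ]
      rcases hZ v hv hvC hvZ with h1 | h1
      · refine mem_union_left _ (mem_union_left _ ?_)
        rw [hSR, mem_filter, mem_sdiff, mem_union]
        exact ⟨⟨hv, by tauto⟩, h1⟩
      · refine mem_union_left _ (mem_union_right _ ?_)
        rw [hSB, mem_filter, mem_sdiff, mem_union]
        exact ⟨⟨hv, by tauto⟩, h1⟩
    have hcard : (S.card : ℝ) ≤ SR.card + SB.card + D := by
      have h1 : S.card ≤ SR.card + SB.card + (C.card + Z.card) :=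
        (card_le_card hcov).trans ((card_union_le _ _).trans
          (add_le_add (card_union_le _ _) (card_union_le _ _)))
      have h2 : S.card ≤ SR.card + SB.card + (2 * M + t * M) := by omega
      have h3 : (S.card : ℝ) ≤ SR.card + SB.card + (2 * M + t * M) := by exact_mod_cast h2
      rw [hD]
      linarith
    have hc0S : c0 ∈ S := hCS hc0
    have hlt1 : SR.card ≤ m := by
      have h1 : SR ⊂ S := by
        refine (ssubset_iff_of_subset hSRS).2 ⟨c0, hc0S, ?_⟩
        rw [hSR, mem_filter, mem_sdiff, mem_union]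
        tauto
      have := card_lt_card h1
      omega
    have hlt2 : SB.card ≤ m := by
      have h1 : SB ⊂ S := by
        refine (ssubset_iff_of_subset hSBS).2 ⟨c0, hc0S, ?_⟩
        rw [hSB, mem_filter, mem_sdiff, mem_union]
        tauto
      have := card_lt_card h1
      omega
    have hadjR : ∀ c ∈ C, ∀ v ∈ SR, G.Adj c v := by
      intro c hc v hv
      rw [hSR, mem_filter] at hv
      exact hv.2 c hc
    have hadjB : ∀ c ∈ C, ∀ v ∈ SB, Gᶜ.Adj c v := by
      intro c hc v hv
      rw [hSB, mem_filter, mem_sdiff, mem_union] at hv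
      rw [SimpleGraph.compl_adj]
      refine ⟨?_, hv.2 c hc⟩
      rintro rfl
      exact hv.1.2 (Or.inl hc)
    -- combine
    have fin : ∀ e1 e2 : ℝ, (SR.card + D) * x ^ (a + b) ≤ 2 * D * e1 →
        (SB.card + D) * x ^ (a + b) ≤ 2 * D * e2 → e1 + e2 ≤ 1 →
        ((S.card : ℝ) + D) * x ^ (a + b) ≤ 2 * D := by
      intro e1 e2 h1 h2 h3
      have h4 : ((S.card : ℝ) + D) * x ^ (a + b) ≤ (SR.card + D + (SB.card + D)) * x ^ (a + b) :=
        mul_le_mul_of_nonneg_right (by linarith) hxab0.le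
      have h5 : 2 * D * (e1 + e2) ≤ 2 * D * 1 := mul_le_mul_of_nonneg_left h3 (by linarith)
      nlinarith
    rcases exists_mono G p (by rw [← hM]; exact hCM) with ⟨T, hTC, hT⟩ | ⟨T, hTC, hT⟩
    · -- red clique
      have hap : p ≤ a := by
        by_contra hcon
        exact ha.of_le (by omega : a ≤ p) T (hTC.trans hCS) hT
      obtain ⟨a', rfl⟩ : ∃ a', a = a' + p := ⟨a - p, by omega⟩
      rcases b with _ | b
      · exact absurd hb (not_noCl_zero _ _)
      have g1 := ih SR hlt1 a' (b + 1) (noCl_join ha hCS hSRS hadjR hTC hT) (hb.mono hSRS)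
      have g2 := ih SB hlt2 (a' + p) b (ha.mono hSBS) (hb.step hc0S hSBS (hadjB c0 hc0))
      refine fin (x ^ p) x ?_ ?_ hx
      · have e : x ^ (a' + p + (b + 1)) = x ^ (a' + (b + 1)) * x ^ p := by
          rw [← pow_add]; congr 1; omega
        rw [e, ← mul_assoc]
        exact mul_le_mul_of_nonneg_right g1 hxp.le
      · have e : x ^ (a' + p + (b + 1)) = x ^ (a' + p + b) * x := by
          rw [← pow_succ]; congr 1
        rw [e, ← mul_assoc]
        exact mul_le_mul_of_nonneg_right g2 hx0.le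
    · -- blue clique
      have hbp : p ≤ b := by
        by_contra hcon
        exact hb.of_le (by omega : b ≤ p) T (hTC.trans hCS) hT
      obtain ⟨b', rfl⟩ : ∃ b', b = b' + p := ⟨b - p, by omega⟩
      rcases a with _ | a
      · exact absurd ha (not_noCl_zero _ _)
      have g1 := ih SR hlt1 a (b' + p) (ha.step hc0S hSRS (hadjR c0 hc0)) (hb.mono hSRS)
      have g2 := ih SB hlt2 (a + 1) b' (ha.mono hSBS) (noCl_join hb hCS hSBS hadjB hTC hT)
      refine fin x (x ^ p) ?_ ?_ (by linarith)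
      · have e : x ^ (a + 1 + (b' + p)) = x ^ (a + (b' + p)) * x := by
          rw [← pow_succ]; congr 1; omega
        rw [e, ← mul_assoc]
        exact mul_le_mul_of_nonneg_right g1 hx0.le
      · have e : x ^ (a + 1 + (b' + p)) = x ^ (a + 1 + b') * x ^ p := by
          rw [← pow_add]; congr 1; omega
        rw [e, ← mul_assoc]
        exact mul_le_mul_of_nonneg_right g2 hxp.le

end Pool.Agent.T2H11.TW
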