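import Pool.Agent.T2H11.TW.Low
import Pool.Agent.T2H11.TW.Cog
import Pool.Agent.T2H11.TW.Num
import Pool.Agent.R51.Stair.Small

set_option autoImplicit false

/-!
# Small twin-width: polynomial bounds with the optimal order of the exponent
-/

open Finset

namespace Pool.Agent.T2H11.TW

open Pool.Agent.R51.Stair (NoMono ramsey log_four_lt log_log_ge_one lt_four_pow)

theorem small_upper {n k t : ℕ} {G : SimpleGraph (Fin n)} (ht : 16 ≤ t) (hk2 : 2 ≤ k)
    (hc : TwwLe G t) (hG : NoMono G k) :
    Real.log n ≤ 6 * (Real.log t * Real.log k / Real.log (Real.log t)) := by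
  obtain ⟨hu, hlu⟩ := log_log_ge_one ht
  set u := Real.log t with hudef
  set lu := Real.log u with hludef
  have hkR : (2 : ℝ) ≤ k := by exact_mod_cast hk2
  have hl2 := Real.log_two_gt_d9
  have hlk : Real.log 2 ≤ Real.log k := Real.log_le_log (by norm_num) hkR
  have hlk0 : 0 < Real.log k := by linarith
  have h4 := log_four_lt
  have hlu0 : 0 < lu := by linarith
  rcases Nat.eq_zero_or_pos n with rfl | hn
  · rw [Nat.cast_zero, Real.log_zero]
    have : 0 ≤ u * Real.log k / lu := by positivity
    linarith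
  have hnR : (0 : ℝ) < n := by exact_mod_cast hn
  rw [← mul_div_assoc, le_div_iff₀ hlu0]
  rcases le_or_gt (k : ℝ) u with hku | hku
  · have h1 : Real.log n ≤ k * Real.log 4 := by
      have : (n : ℝ) ≤ 4 ^ k := by exact_mod_cast (lt_four_pow hG).le
      have h5 := Real.log_le_log hnR this
      rwa [Real.log_pow] at h5
    have h2 : k * lu ≤ 2.5 * (u * Real.log k) := by
      have h6 : Real.log (u / k) ≤ u / k - 1 := Real.log_le_sub_one_of_pos (by positivity)
      rw [Real.log_div (by linarith) (by linarith)] at h6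
      have h7 : k * (lu - Real.log k) ≤ k * (u / k - 1) :=
        mul_le_mul_of_nonneg_left h6 (by linarith)
      have h8 : k * (u / k - 1) = u - k := by
        field_simp
      rw [h8] at h7
      have h9 : k * Real.log k ≤ u * Real.log k := mul_le_mul_of_nonneg_right hku hlk0.le
      have h10 : u * 0.69 ≤ u * Real.log k := mul_le_mul_of_nonneg_left (by linarith) (by linarith)
      nlinarith
    have h3 : Real.log n * lu ≤ (k * Real.log 4) * lu := mul_le_mul_of_nonneg_right h1 hlu0.le
    have h5 : (k * Real.log 4) * lu = Real.log 4 * (k * lu) := by ring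
    have h6 : Real.log 4 * (k * lu) ≤ 1.39 * (k * lu) :=
      mul_le_mul_of_nonneg_right h4.le (by positivity)
    have h7 : 0 < u * Real.log k := by positivity
    nlinarith
  · set p : ℕ := ⌈u⌉₊ with hp
    have hpu : u ≤ p := Nat.le_ceil u
    have hup : (p : ℝ) < u + 1 := Nat.ceil_lt_add_one (by linarith)
    have hpk : p ≤ k := Nat.ceil_le.2 hku.le
    have hp2R : (2 : ℝ) ≤ p := by linarith
    have hp1 : 1 ≤ p := by
      have : (1 : ℝ) ≤ p := by linarith
      exact_mod_cast this
    have hlp : lu ≤ Real.log p := Real.log_le_log (by linarith) hpu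
    have hlp0 : 0 < Real.log p := by linarith
    have hlpk : Real.log p ≤ Real.log k :=
      Real.log_le_log (by linarith) (by exact_mod_cast hpk)
    set J : ℕ := ⌊2 * Real.log k / Real.log p⌋₊ + 1 with hJ
    have hJ1 : 2 * Real.log k / Real.log p < J := by
      rw [hJ]
      push_cast
      exact Nat.lt_floor_add_one _
    have hJ2 : (J : ℝ) ≤ 3 * Real.log k / Real.log p := by
      have h1 : (⌊2 * Real.log k / Real.log p⌋₊ : ℝ) ≤ 2 * Real.log k / Real.log p :=
        Nat.floor_le (by positivity)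
      have h2 : 1 ≤ Real.log k / Real.log p := by
        rw [le_div_iff₀ hlp0]
        linarith
      rw [hJ]
      push_cast
      have h3 : 3 * Real.log k / Real.log p = 2 * Real.log k / Real.log p + Real.log k / Real.log p := by
        ring
      rw [h3]
      linarith
    have hkJ : k ^ 2 ≤ p ^ J := by
      have h1 : Real.log ((k : ℝ) ^ 2) ≤ Real.log ((p : ℝ) ^ J) := by
        rw [Real.log_pow, Real.log_pow]
        rw [div_lt_iff₀ hlp0] at hJ1
        push_cast
        linarith
      have h2 : (k : ℝ) ^ 2 ≤ (p : ℝ) ^ J :=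
        (Real.log_le_log_iff (by positivity) (by positivity)).1 h1
      exact_mod_cast h2
    have hnW : n < (2 ^ p * (t + 2)) ^ J := by
      have := poly_upper hc hG.1 hG.2 hp1 (by omega) hkJ
      rwa [Fintype.card_fin] at this
    have hlogn : Real.log n ≤ J * (p * Real.log 2 + Real.log (t + 2)) := by
      have h1 : (n : ℝ) ≤ (2 ^ p * (t + 2)) ^ J := by exact_mod_cast hnW.le
      have h2 := Real.log_le_log hnR h1
      rw [Real.log_pow, Real.log_mul (by positivity) (by positivity), Real.log_pow] at h2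
      exact h2
    have htR : (16 : ℝ) ≤ t := by exact_mod_cast ht
    have hW : p * Real.log 2 + Real.log (t + 2) ≤ 2 * u := by
      have h1 : Real.log ((t : ℝ) + 2) ≤ u + 0.125 := by
        have h2 : (t : ℝ) + 2 = t * (1 + 2 / t) := by field_simp
        rw [h2, Real.log_mul (by positivity) (by positivity)]
        have h3 : Real.log (1 + 2 / (t : ℝ)) ≤ 2 / t := by
          have := Real.log_le_sub_one_of_pos (show (0 : ℝ) < 1 + 2 / t by positivity)
          linarith
        have h5 : 2 / (t : ℝ) ≤ 0.125 := by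
          rw [div_le_iff₀ (by linarith)]
          linarith
        linarith
      have h2 := Real.log_two_lt_d9
      have h3 : (p : ℝ) * Real.log 2 ≤ (u + 1) * 0.6931471808 := by
        apply mul_le_mul hup.le h2.le
        · linarith
        · linarith
      linarith
    have h1 : Real.log n ≤ (3 * Real.log k / Real.log p) * (2 * u) := by
      refine hlogn.trans ?_
      apply mul_le_mul hJ2 hW
      · have : 0 < Real.log ((t : ℝ) + 2) := Real.log_pos (by linarith)
        have : 0 < Real.log 2 := by linarith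
        positivity
      · positivity
    have h2 : Real.log n * lu ≤ (3 * Real.log k / Real.log p) * (2 * u) * Real.log p := by
      apply mul_le_mul h1 hlp hlu0.le
      positivity
    have h3 : (3 * Real.log k / Real.log p) * (2 * u) * Real.log p = 6 * (u * Real.log k) := by
      field_simp
      ring
    rw [h3] at h2
    linarith

/-- transfer of the powers to `Fin n` -/
theorem power_fin {m κ t : ℕ} (G0 : SimpleGraph (Fin m)) (hm : 1 ≤ m) (hmt : m ≤ t + 1)
    (h1 : G0.CliqueFree (κ + 1)) (h2 : G0ᶜ.CliqueFree (κ + 1)) (L : ℕ) :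
    ∃ G : SimpleGraph (Fin (m ^ L)), TwwLe G t ∧ NoMono G (κ ^ L + 1) := by
  obtain ⟨V, i1, i2, G, hV, ht, hc1, hc2⟩ := power_exists G0 hm hmt h1 h2 L
  have e : V ≃ Fin (m ^ L) := Fintype.equivFinOfCardEq hV
  have hcf : ∀ K : SimpleGraph V, K.CliqueFree (κ ^ L + 1) →
      (K.comap e.symm).CliqueFree (κ ^ L + 1) := by
    intro K hK T hT
    refine hK (T.map e.symm.toEmbedding) ?_
    rw [SimpleGraph.isNClique_iff, card_map]
    refine ⟨?_, hT.card_eq⟩
    intro u hu v hv huv
    rw [mem_coe, mem_map] at hu hv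
    obtain ⟨x, hx, rfl⟩ := hu
    obtain ⟨y, hy, rfl⟩ := hv
    have hxy : x ≠ y := by
      rintro rfl
      exact huv rfl
    exact hT.isClique (mem_coe.2 hx) (mem_coe.2 hy) hxy
  refine ⟨G.comap e.symm, ht.iso e ?_, hcf G hc1, ?_⟩
  · intro x y
    simp
  · have he : (G.comap e.symm)ᶜ = Gᶜ.comap e.symm := by
      ext x y
      simp
    rw [he]
    exact hcf Gᶜ hc2

theorem small_lower {k t : ℕ} (ht : 16 ≤ t) (htk : t ≤ 2 ^ k) :
    ∃ (n : ℕ) (G : SimpleGraph (Fin n)), NoMono G k ∧ TwwLe G t ∧
      1 / 9 * (Real.log t * Real.log k / Real.log (Real.log t)) ≤ Real.log n := by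
  obtain ⟨hu, hlu⟩ := log_log_ge_one ht
  have hl2 := Real.log_two_gt_d9
  have hl2' := Real.log_two_lt_d9
  have htR : (16 : ℝ) ≤ t := by exact_mod_cast ht
  set l := Nat.log 2 t with hl
  have hl4 : 4 ≤ l := by
    rw [hl]
    exact Nat.le_log_of_pow_le (by norm_num) (by norm_num; exact ht)
  have hpl : 2 ^ l ≤ t := Nat.pow_log_le_self 2 (by omega)
  have hpl' : t < 2 ^ (l + 1) := Nat.lt_pow_succ_log_self (by norm_num) t
  have hlk : l ≤ k := by
    have : 2 ^ l ≤ 2 ^ k := hpl.trans htk
    exact (Nat.pow_le_pow_iff_right (by norm_num)).1 this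
  set h := l / 2 with hh
  have hh2 : 2 ≤ h := by omega
  have h2l : 2 * h ≤ l := by omega
  have hl2h : l + 1 ≤ 3 * h := by omega
  -- the base colouring
  have hR : 2 ^ h < Pool.Agent.H818R2.Ram.R (2 * h) (2 * h) := by
    have h1 := Pool.Agent.H818R2.Ram.erdos_lower (show 3 ≤ 2 * h by omega)
    rw [mul_comm 2 h, pow_mul] at h1
    rw [mul_comm 2 h]
    exact lt_of_pow_lt_pow_left₀ 2 (Nat.zero_le _) h1
  obtain ⟨G0, hg1, hg2⟩ := Pool.Agent.H818R2.Ram.exists_coloring hR
  have e2h : 2 * h = (2 * h - 1) + 1 := by omega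
  have hc1 : G0.CliqueFree ((2 * h - 1) + 1) := by
    rw [← e2h]
    intro T hT
    exact hg1 ⟨T, subset_univ _, hT⟩
  have hc2 : G0ᶜ.CliqueFree ((2 * h - 1) + 1) := by
    rw [← e2h]
    intro T hT
    exact hg2 ⟨T, subset_univ _, hT⟩
  have hmt : 2 ^ h ≤ t + 1 := by
    have : 2 ^ h ≤ 2 ^ l := Nat.pow_le_pow_right (by norm_num) (by omega)
    omega
  set L := Nat.log (2 * h) k with hL
  have hL1 : 1 ≤ L := by
    rw [hL]
    exact Nat.le_log_of_pow_le (by omega) (by rw [pow_one]; omega)
  have hLk : (2 * h) ^ L ≤ k := Nat.pow_log_le_self _ (by omega)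
  have hLk' : k < (2 * h) ^ (L + 1) := Nat.lt_pow_succ_log_self (by omega) k
  obtain ⟨G, hG1, hG2⟩ := power_fin G0 (Nat.one_le_pow _ _ (by norm_num)) hmt hc1 hc2 L
  have hle : (2 * h - 1) ^ L + 1 ≤ k := by
    have : (2 * h - 1) ^ L < (2 * h) ^ L := Nat.pow_lt_pow_left (by omega) (by omega)
    omega
  refine ⟨(2 ^ h) ^ L, G, ⟨hG2.1.mono hle, hG2.2.mono hle⟩, hG1, ?_⟩
  -- numerics
  have hkR : (4 : ℝ) ≤ k := by
    have : 4 ≤ k := by omega
    exact_mod_cast this
  have hlogk : 0 < Real.log k := Real.log_pos (by linarith)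
  have hhR : (2 : ℝ) ≤ h := by exact_mod_cast hh2
  have hLR : (1 : ℝ) ≤ L := by exact_mod_cast hL1
  have hlogn : Real.log (((2 ^ h) ^ L : ℕ) : ℝ) = L * (h * Real.log 2) := by
    push_cast
    rw [Real.log_pow, Real.log_pow]
  have hlt : Real.log t ≤ 3 * h * Real.log 2 := by
    have h1 : (t : ℝ) ≤ 2 ^ (3 * h) := by
      have : t ≤ 2 ^ (3 * h) := hpl'.le.trans (Nat.pow_le_pow_right (by norm_num) hl2h)
      exact_mod_cast this
    have h3 := Real.log_le_log (by linarith) h1
    rw [Real.log_pow] at h3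
    push_cast at h3
    exact h3
  have hl2hpos : 0 < Real.log (2 * h) := Real.log_pos (by linarith)
  have hlk2 : Real.log k ≤ 2 * L * Real.log (2 * h) := by
    have h1 : (k : ℝ) ≤ (2 * h) ^ (L + 1) := by exact_mod_cast hLk'.le
    have h3 := Real.log_le_log (by linarith) h1
    rw [Real.log_pow] at h3
    push_cast at h3
    have h4 : ((L : ℝ) + 1) * Real.log (2 * h) ≤ (2 * L) * Real.log (2 * h) :=
      mul_le_mul_of_nonneg_right (by linarith) hl2hpos.le
    linarith
  have hll : Real.log (2 * h) ≤ 1.45 * Real.log (Real.log t) := by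
    have h1 : (2 * (h : ℝ)) ≤ Real.log t / Real.log 2 := by
      rw [le_div_iff₀ (by linarith)]
      have h3 : ((2 : ℝ)) ^ l ≤ t := by exact_mod_cast hpl
      have h4 := Real.log_le_log (by positivity) h3
      rw [Real.log_pow] at h4
      have h5 : (2 * (h : ℝ)) ≤ l := by exact_mod_cast h2l
      have h6 : 2 * (h : ℝ) * Real.log 2 ≤ l * Real.log 2 :=
        mul_le_mul_of_nonneg_right h5 (by linarith)
      linarith
    have h3 := Real.log_le_log (by linarith) h1
    rw [Real.log_div (by linarith) (by linarith)] at h3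
    have h4 : -Real.log (Real.log 2) ≤ 0.45 := by
      have h5 : Real.log ((Real.log 2)⁻¹) ≤ (Real.log 2)⁻¹ - 1 :=
        Real.log_le_sub_one_of_pos (by positivity)
      rw [Real.log_inv] at h5
      have h6 : (Real.log 2)⁻¹ ≤ 1.45 := by
        rw [inv_le_comm₀ (by linarith) (by norm_num)]
        norm_num
        linarith
      linarith
    linarith
  have hlu0 : 0 < Real.log (Real.log t) := by linarith
  rw [hlogn, ← mul_div_assoc, div_le_iff₀ hlu0]
  have s1 : Real.log t * Real.log k ≤ (3 * h * Real.log 2) * (2 * L * Real.log (2 * h)) :=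
    mul_le_mul hlt hlk2 hlogk.le (by positivity)
  have s2 : (3 * h * Real.log 2) * (2 * L * Real.log (2 * h)) ≤
      (3 * h * Real.log 2) * (2 * L * (1.45 * Real.log (Real.log t))) := by
    apply mul_le_mul_of_nonneg_left _ (by positivity)
    apply mul_le_mul_of_nonneg_left hll (by positivity)
  have s3 : 0 ≤ (L : ℝ) * (h * Real.log 2) * Real.log (Real.log t) := by positivity
  nlinarith

end Pool.Agent.T2H11.TW
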